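import Mathlib

/-! # Hypermaps: pairs of permutations and Euler's formula -/

namespace Pool.Agent.Lib_helper59.Hyper

open Equiv Equiv.Perm

variable {D : Type*}

/-- The number of cycles of a permutation (fixed points included). -/
noncomputable def cyc (σ : Perm D) : ℕ := Nat.card (Quotient (SameCycle.setoid σ))

/-- The number of orbits of the group generated by two permutations. -/
noncomputable def comps (ρ τ : Perm D) : ℕ :=
  Nat.card (Quotient (SameCycle.setoid ρ ⊔ SameCycle.setoid τ))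

/-- the setoid identifying just `a` and `b` -/
def E (a b : D) : Setoid D where
  r x y := x = y ∨ (x = a ∧ y = b) ∨ (x = b ∧ y = a)
  iseqv := by
    constructor
    · intro x; exact Or.inl rfl
    · rintro x y (h | ⟨h1, h2⟩ | ⟨h1, h2⟩)
      · exact Or.inl h.symm
      · exact Or.inr (Or.inr ⟨h2, h1⟩)
      · exact Or.inr (Or.inl ⟨h2, h1⟩)
    · rintro x y z (h | ⟨h1, h2⟩ | ⟨h1, h2⟩) (h' | ⟨h1', h2'⟩ | ⟨h1', h2'⟩)
      · exact Or.inl (h.trans h')
      · exact Or.inr (Or.inl ⟨h.trans h1', h2'⟩)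
      · exact Or.inr (Or.inr ⟨h.trans h1', h2'⟩)
      · exact Or.inr (Or.inl ⟨h1, h'.symm.trans h2⟩)
      · exact Or.inr (Or.inl ⟨h1, h2'⟩)
      · exact Or.inl (h1.trans h2'.symm)
      · exact Or.inr (Or.inr ⟨h1, h'.symm.trans h2⟩)
      · exact Or.inl (h1.trans h2'.symm)
      · exact Or.inr (Or.inr ⟨h1, h2'⟩)

theorem E_le_iff {s : Setoid D} {a b : D} : E a b ≤ s ↔ s a b := by
  constructor
  · intro h; exact h (Or.inr (Or.inl ⟨rfl, rfl⟩))
  · rintro h x y (rfl | ⟨rfl, rfl⟩ | ⟨rfl, rfl⟩)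
    · exact s.refl _
    · exact h
    · exact s.symm h

/-- merging two classes -/
def mergeSetoid (s : Setoid D) (a b : D) : Setoid D where
  r x y := s x y ∨ (s x a ∧ s y b) ∨ (s x b ∧ s y a)
  iseqv := by
    constructor
    · intro x; exact Or.inl (s.refl x)
    · rintro x y (h | ⟨h1, h2⟩ | ⟨h1, h2⟩)
      · exact Or.inl (s.symm h)
      · exact Or.inr (Or.inr ⟨h2, h1⟩)
      · exact Or.inr (Or.inl ⟨h2, h1⟩)
    · rintro x y z (h | ⟨h1, h2⟩ | ⟨h1, h2⟩) (h' | ⟨h1', h2'⟩ | ⟨h1', h2'⟩)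
      · exact Or.inl (s.trans h h')
      · exact Or.inr (Or.inl ⟨s.trans h h1', h2'⟩)
      · exact Or.inr (Or.inr ⟨s.trans h h1', h2'⟩)
      · exact Or.inr (Or.inl ⟨h1, s.trans (s.symm h') h2⟩)
      · exact Or.inr (Or.inl ⟨h1, h2'⟩)
      · exact Or.inl (s.trans h1 (s.symm h2'))
      · exact Or.inr (Or.inr ⟨h1, s.trans (s.symm h') h2⟩)
      · exact Or.inl (s.trans h1 (s.symm h2'))
      · exact Or.inr (Or.inr ⟨h1, h2'⟩)

theorem sup_E (s : Setoid D) (a b : D) : s ⊔ E a b = mergeSetoid s a b := by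
  apply le_antisymm
  · apply sup_le
    · intro x y h; exact Or.inl h
    · rw [E_le_iff]; exact Or.inr (Or.inl ⟨s.refl a, s.refl b⟩)
  · have h1 : s ≤ s ⊔ E a b := le_sup_left
    have h2 : (s ⊔ E a b) a b := E_le_iff.mp (le_sup_right : E a b ≤ s ⊔ E a b)
    rintro x y (h | ⟨hx, hy⟩ | ⟨hx, hy⟩)
    · exact h1 h
    · exact (s ⊔ E a b).trans (h1 hx) ((s ⊔ E a b).trans h2 ((s ⊔ E a b).symm (h1 hy)))
    · exact (s ⊔ E a b).trans (h1 hx)
        ((s ⊔ E a b).trans ((s ⊔ E a b).symm h2) ((s ⊔ E a b).symm (h1 hy)))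

theorem card_merge [Finite D] (s : Setoid D) (a b : D) (hab : ¬ s a b) :
    Nat.card (Quotient (s ⊔ E a b)) + 1 = Nat.card (Quotient s) := by
  classical
  rw [sup_E]
  let f : {q : Quotient s // q ≠ Quotient.mk s b} → Quotient (mergeSetoid s a b) :=
    fun q => Quotient.map' (s₁ := s) (s₂ := mergeSetoid s a b) id (fun x y h => Or.inl h) q.1
  have hf : ∀ x h, f ⟨Quotient.mk s x, h⟩ = Quotient.mk (mergeSetoid s a b) x := fun x h => rfl
  have hbij : Function.Bijective f := by
    constructor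
    · rintro ⟨q, hq⟩ ⟨q', hq'⟩ h
      induction q using Quotient.inductionOn with | _ x =>
      induction q' using Quotient.inductionOn with | _ y =>
      rw [hf, hf] at h
      have h1 : mergeSetoid s a b x y := Quotient.exact h
      apply Subtype.ext
      rcases h1 with h1 | ⟨_, h2⟩ | ⟨h1, _⟩
      · exact Quotient.sound h1
      · exact absurd (Quotient.sound h2) hq'
      · exact absurd (Quotient.sound h1) hq
    · intro q
      induction q using Quotient.inductionOn with | _ y =>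
      by_cases hy : s y b
      · refine ⟨⟨Quotient.mk s a, fun h => hab (Quotient.exact h)⟩, ?_⟩
        rw [hf]
        exact Quotient.sound (Or.inr (Or.inl ⟨s.refl a, hy⟩))
      · exact ⟨⟨Quotient.mk s y, fun h => hy (Quotient.exact h)⟩, rfl⟩
  rw [← Nat.card_congr (Equiv.ofBijective f hbij), ← Finite.card_option]
  exact Nat.card_congr (Equiv.optionSubtypeNe (Quotient.mk s b))

theorem sc_le_iff {s : Setoid D} {σ : Perm D} :
    SameCycle.setoid σ ≤ s ↔ ∀ x, s x (σ x) := by
  constructor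
  · intro h x
    exact h (show SameCycle σ x (σ x) from ⟨1, by simp⟩)
  · intro h x y hxy
    have hn : ∀ (n : ℕ) (x : D), s x ((σ ^ n) x) := by
      intro n
      induction n with
      | zero => intro x; exact s.refl _
      | succ n ih =>
        intro x
        rw [pow_succ', Perm.mul_apply]
        exact s.trans (ih x) (h _)
    obtain ⟨i, hi⟩ := (hxy : SameCycle σ x y)
    rcases i with n | n
    · rw [Int.ofNat_eq_natCast, zpow_natCast] at hi
      rw [← hi]; exact hn n x
    · rw [zpow_negSucc, Perm.inv_eq_iff_eq] at hi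
      rw [hi]
      exact s.symm (hn _ y)

theorem sc_apply (σ : Perm D) (x : D) : (SameCycle.setoid σ) x (σ x) :=
  sc_le_iff.mp le_rfl x

variable [DecidableEq D]

theorem sc_swap_sup (σ : Perm D) (a b : D) :
    SameCycle.setoid (swap a b * σ) ⊔ E a b = SameCycle.setoid σ ⊔ E a b := by
  have key : ∀ σ : Perm D, SameCycle.setoid (swap a b * σ) ≤ SameCycle.setoid σ ⊔ E a b := by
    intro σ
    rw [sc_le_iff]
    intro x
    have h1 : (SameCycle.setoid σ ⊔ E a b) x (σ x) :=
      (le_sup_left : SameCycle.setoid σ ≤ _) (sc_apply σ x)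
    have h2 : (SameCycle.setoid σ ⊔ E a b) a b :=
      E_le_iff.mp (le_sup_right : E a b ≤ SameCycle.setoid σ ⊔ E a b)
    refine (SameCycle.setoid σ ⊔ E a b).trans h1 ?_
    rw [Perm.mul_apply]
    by_cases ha : σ x = a
    · rw [ha, swap_apply_left]; exact h2
    · by_cases hb : σ x = b
      · rw [hb, swap_apply_right]; exact (SameCycle.setoid σ ⊔ E a b).symm h2
      · rw [swap_apply_of_ne_of_ne ha hb]
  apply le_antisymm
  · exact sup_le (key σ) le_sup_right
  · refine sup_le ?_ le_sup_right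
    have := key (swap a b * σ)
    rwa [← mul_assoc, swap_mul_self, one_mul] at this

theorem swap_key [Finite D] (σ : Perm D) {a b : D} (hab : a ≠ b) :
    SameCycle (swap a b * σ) a b ↔ ¬ SameCycle σ a b := by
  classical
  set σ' := swap a b * σ with hσ'
  -- first return to {a, b}
  have hex : ∃ n : ℕ, 0 < n ∧ ((σ ^ n) a = a ∨ (σ ^ n) a = b) :=
    ⟨orderOf σ, orderOf_pos σ, Or.inl (by rw [pow_orderOf_eq_one]; rfl)⟩
  obtain ⟨hn0, hn⟩ := Nat.find_spec hex
  set n := Nat.find hex with hndef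
  have hmin : ∀ j, 0 < j → j < n → (σ ^ j) a ≠ a ∧ (σ ^ j) a ≠ b := by
    intro j hj0 hjn
    have := Nat.find_min hex hjn
    push Not at this
    exact this hj0
  have hiter : ∀ j, j < n → (σ' ^ j) a = (σ ^ j) a := by
    intro j
    induction j with
    | zero => intro _; rfl
    | succ j ih =>
      intro hj
      rw [pow_succ', Perm.mul_apply, ih (by omega), hσ', Perm.mul_apply, ← Perm.mul_apply σ,
        ← pow_succ']
      obtain ⟨h1, h2⟩ := hmin (j + 1) (by omega) hj
      exact swap_apply_of_ne_of_ne h1 h2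
  have hiter_n : (σ' ^ n) a = swap a b ((σ ^ n) a) := by
    obtain ⟨m, hm⟩ : ∃ m, n = m + 1 := ⟨n - 1, by omega⟩
    rw [hm, pow_succ', Perm.mul_apply, hiter m (by omega), hσ', Perm.mul_apply,
      ← Perm.mul_apply σ, ← pow_succ']
  -- elements of the orbit before n are not b
  have hnotb : ∀ j, j < n → (σ ^ j) a ≠ b := by
    intro j hj
    rcases Nat.eq_zero_or_pos j with rfl | h0
    · exact hab
    · exact (hmin j h0 hj).2
  have hper : ∀ (π : Perm D), (π ^ n) a = a → (∀ j, j < n → (π ^ j) a ≠ b) →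
      ¬ SameCycle π a b := by
    intro π hπ hπb hsc
    obtain ⟨k, hk⟩ := hsc.exists_nat_pow_eq
    have h1 : Function.IsPeriodicPt (π : D → D) n a := by
      rw [Function.IsPeriodicPt, Function.IsFixedPt, Perm.iterate_eq_pow]; exact hπ
    have h2 := h1.iterate_mod_apply k
    rw [Perm.iterate_eq_pow, Perm.iterate_eq_pow, hk] at h2
    exact hπb _ (Nat.mod_lt _ hn0) h2
  rcases hn with hna | hnb
  · -- a returns to a before meeting b
    have h1 : ¬ SameCycle σ a b := hper σ hna hnotb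
    have h2 : SameCycle σ' a b := by
      refine ⟨(n : ℤ), ?_⟩
      rw [zpow_natCast, hiter_n, hna, swap_apply_left]
    exact ⟨fun _ => h1, fun _ => h2⟩
  · have h1 : SameCycle σ a b := ⟨(n : ℤ), by rw [zpow_natCast]; exact hnb⟩
    have h2 : ¬ SameCycle σ' a b := by
      apply hper σ'
      · rw [hiter_n, hnb, swap_apply_right]
      · intro j hj
        rw [hiter j hj]; exact hnotb j hj
    exact ⟨fun h => absurd h h2, fun h => absurd h1 h⟩

theorem cyc_swap_of_not [Finite D] (σ : Perm D) {a b : D} (h : ¬ SameCycle σ a b) :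
    cyc (swap a b * σ) + 1 = cyc σ := by
  have hab : a ≠ b := by rintro rfl; exact h (SameCycle.refl _ _)
  have h1 := (swap_key σ hab).mpr h
  have h2 : SameCycle.setoid (swap a b * σ) = SameCycle.setoid σ ⊔ E a b := by
    rw [← sc_swap_sup, eq_comm, sup_eq_left, E_le_iff]
    exact h1
  unfold cyc
  rw [h2]
  exact card_merge _ a b h

theorem cyc_swap_of_same [Finite D] (σ : Perm D) {a b : D} (hab : a ≠ b)
    (h : SameCycle σ a b) : cyc (swap a b * σ) = cyc σ + 1 := by
  have h1 : ¬ SameCycle (swap a b * σ) a b := fun h' => (swap_key σ hab).mp h' h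
  have h2 := cyc_swap_of_not (swap a b * σ) h1
  rw [← mul_assoc, swap_mul_self, one_mul] at h2
  exact h2.symm

omit [DecidableEq D] in
theorem sc_mul_le (ρ τ : Perm D) :
    SameCycle.setoid (ρ * τ) ≤ SameCycle.setoid ρ ⊔ SameCycle.setoid τ := by
  rw [sc_le_iff]
  intro x
  have h1 : (SameCycle.setoid ρ ⊔ SameCycle.setoid τ) x (τ x) :=
    (le_sup_right : SameCycle.setoid τ ≤ _) (sc_apply τ x)
  have h2 : (SameCycle.setoid ρ ⊔ SameCycle.setoid τ) (τ x) (ρ (τ x)) :=
    (le_sup_left : SameCycle.setoid ρ ≤ _) (sc_apply ρ (τ x))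
  exact (SameCycle.setoid ρ ⊔ SameCycle.setoid τ).trans h1 h2

/-- one step: making `z` a fixed point of `ρ` -/
theorem step [Finite D] (ρ τ : Perm D) (z : D) (hz : ρ z ≠ z) :
    cyc (swap z (ρ z) * ρ) = cyc ρ + 1 ∧
    ((cyc (swap z (ρ z) * ρ * τ) = cyc (ρ * τ) + 1 ∧
        (comps (swap z (ρ z) * ρ) τ ≤ comps ρ τ + 1) ∧
        (comps ρ τ ≤ comps (swap z (ρ z) * ρ) τ)) ∨
      (cyc (swap z (ρ z) * ρ * τ) + 1 = cyc (ρ * τ) ∧
        comps (swap z (ρ z) * ρ) τ = comps ρ τ)) := by
  set ρ' := swap z (ρ z) * ρ with hρ'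
  have hsc : SameCycle ρ z (ρ z) := ⟨1, by simp⟩
  refine ⟨cyc_swap_of_same ρ (fun h => hz h.symm) hsc, ?_⟩
  have hJ : SameCycle.setoid ρ ⊔ SameCycle.setoid τ
      = (SameCycle.setoid ρ' ⊔ SameCycle.setoid τ) ⊔ E z (ρ z) := by
    have h1 : SameCycle.setoid ρ = SameCycle.setoid ρ' ⊔ E z (ρ z) := by
      rw [hρ', sc_swap_sup, eq_comm, sup_eq_left, E_le_iff]; exact hsc
    rw [h1, sup_right_comm]
  by_cases h : SameCycle (ρ * τ) z (ρ z)
  · left
    refine ⟨?_, ?_⟩
    · rw [hρ', mul_assoc]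
      exact cyc_swap_of_same (ρ * τ) (fun h => hz h.symm) h
    · by_cases hJ' : (SameCycle.setoid ρ' ⊔ SameCycle.setoid τ) z (ρ z)
      · have : SameCycle.setoid ρ ⊔ SameCycle.setoid τ
            = SameCycle.setoid ρ' ⊔ SameCycle.setoid τ := by
          rw [hJ, sup_eq_left, E_le_iff]; exact hJ'
        unfold comps
        rw [this]
        exact ⟨Nat.le_succ _, le_rfl⟩
      · have := card_merge _ _ _ hJ'
        unfold comps
        rw [hJ]
        omega
  · right
    have h1 := cyc_swap_of_not (ρ * τ) h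
    refine ⟨by rw [hρ', mul_assoc]; exact h1, ?_⟩
    have h2 : SameCycle (swap z (ρ z) * (ρ * τ)) z (ρ z) :=
      (swap_key (ρ * τ) (fun h => hz h.symm)).mpr h
    rw [← mul_assoc, ← hρ'] at h2
    have h3 : (SameCycle.setoid ρ' ⊔ SameCycle.setoid τ) z (ρ z) := sc_mul_le ρ' τ h2
    unfold comps
    rw [hJ]
    congr 2
    rw [eq_comm, sup_eq_left, E_le_iff]; exact h3

omit [DecidableEq D] in
theorem cyc_one : cyc (1 : Perm D) = Nat.card D := by
  unfold cyc
  refine Nat.card_congr (Equiv.ofBijective (fun x : D => Quotient.mk (SameCycle.setoid 1) x)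
    ⟨fun x y h => ?_, fun q => ?_⟩).symm
  · have : SameCycle (1 : Perm D) x y := Quotient.exact h
    exact sameCycle_one.mp this
  · exact Quotient.exists_rep q

omit [DecidableEq D] in
theorem comps_one (τ : Perm D) : comps 1 τ = cyc τ := by
  unfold comps cyc
  have : SameCycle.setoid (1 : Perm D) ⊔ SameCycle.setoid τ = SameCycle.setoid τ := by
    rw [sup_eq_right, sc_le_iff]
    intro x
    exact (SameCycle.setoid τ).refl x
  rw [this]

/-- the genus is nonnegative -/
theorem euler_le [Fintype D] : ∀ (k : ℕ) (ρ τ : Perm D), ρ.support.card = k →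
    cyc ρ + cyc τ + cyc (ρ * τ) ≤ Nat.card D + 2 * comps ρ τ := by
  intro k
  induction k using Nat.strong_induction_on with
  | _ k ih =>
    intro ρ τ hk
    by_cases hρ : ρ = 1
    · subst hρ
      rw [cyc_one, comps_one, one_mul]
      omega
    · obtain ⟨z, hz⟩ : ∃ z, ρ z ≠ z := by
        by_contra hcon
        push Not at hcon
        exact hρ (Equiv.ext hcon)
      have hlt := card_support_swap_mul hz
      have h1 := ih _ (hk ▸ hlt) (swap z (ρ z) * ρ) τ rfl
      obtain ⟨h2, h3⟩ := step ρ τ z hz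
      rcases h3 with ⟨h3, h4, h5⟩ | ⟨h3, h4⟩ <;> omega

/-- Euler's formula: the hypermap `(ρ, τ)` has genus zero (on each component). -/
def Euler (ρ τ : Perm D) : Prop :=
  cyc ρ + cyc τ + cyc (ρ * τ) = Nat.card D + 2 * comps ρ τ

theorem Euler.step [Fintype D] {ρ τ : Perm D} (h : Euler ρ τ) (z : D) :
    Euler (swap z (ρ z) * ρ) τ := by
  by_cases hz : ρ z = z
  · rw [hz, swap_self]
    have : (Equiv.refl D : Perm D) * ρ = ρ := one_mul ρ
    rw [this]; exact h
  · unfold Euler at h ⊢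
    have h1 := euler_le _ (swap z (ρ z) * ρ) τ rfl
    obtain ⟨h2, h3⟩ := Hyper.step ρ τ z hz
    rcases h3 with ⟨h3, h4, h5⟩ | ⟨h3, h4⟩ <;> omega

omit [DecidableEq D] in
theorem setoid_inv (σ : Perm D) : SameCycle.setoid σ⁻¹ = SameCycle.setoid σ := by
  ext x y
  exact sameCycle_inv

omit [DecidableEq D] in
theorem cyc_inv (σ : Perm D) : cyc σ⁻¹ = cyc σ := by
  unfold cyc; rw [setoid_inv]

omit [DecidableEq D] in
theorem Euler.inv {ρ τ : Perm D} (h : Euler ρ τ) : Euler τ⁻¹ ρ⁻¹ := by
  unfold Euler at h ⊢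
  rw [← mul_inv_rev, cyc_inv, cyc_inv, cyc_inv]
  have : comps τ⁻¹ ρ⁻¹ = comps ρ τ := by
    unfold comps
    rw [setoid_inv, setoid_inv, sup_comm]
  rw [this]
  omega

omit [DecidableEq D] in
/-- the triple can be rotated: from `(ρ, τ)` to `(ρ⁻¹, ρ τ)` -/
theorem Euler.rot {ρ τ : Perm D} (h : Euler ρ τ) : Euler ρ⁻¹ (ρ * τ) := by
  unfold Euler at h ⊢
  rw [inv_mul_cancel_left, cyc_inv]
  have : comps ρ⁻¹ (ρ * τ) = comps ρ τ := by
    unfold comps
    rw [setoid_inv]
    congr 2
    apply le_antisymm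
    · exact sup_le le_sup_left (sc_mul_le ρ τ)
    · refine sup_le le_sup_left ?_
      have := sc_mul_le ρ⁻¹ (ρ * τ)
      rwa [inv_mul_cancel_left, setoid_inv] at this
  rw [this]
  omega

/-! ### Removing darts -/

/-- `σ'` fixes `T` pointwise and outside `T` it is the first return map of `σ`. -/
def IsInduced (σ σ' : Perm D) (T : Finset D) : Prop :=
  (∀ z ∈ T, σ' z = z) ∧
  ∀ d, d ∉ T → ∃ k : ℕ, 0 < k ∧ σ' d = (σ ^ k) d ∧ σ' d ∉ T ∧
    ∀ j, 0 < j → j < k → (σ ^ j) d ∈ T

omit [DecidableEq D] in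
theorem IsInduced.inv {σ σ' : Perm D} {T : Finset D} (h : IsInduced σ σ' T) :
    IsInduced σ⁻¹ σ'⁻¹ T := by
  obtain ⟨h1, h2⟩ := h
  constructor
  · intro z hz
    rw [Perm.inv_eq_iff_eq]; exact (h1 z hz).symm
  · intro d hd
    obtain ⟨e, he⟩ : ∃ e, σ'⁻¹ d = e := ⟨_, rfl⟩
    have hde : σ' e = d := by rw [← he]; simp
    rw [he]
    have heT : e ∉ T := by
      intro h
      apply hd
      rw [← hde, h1 e h]; exact h
    obtain ⟨k, hk0, hk, _, hkT⟩ := h2 e heT
    rw [hde] at hk
    refine ⟨k, hk0, ?_, heT, ?_⟩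
    · rw [hk, ← Perm.mul_apply, inv_pow, inv_mul_cancel]; rfl
    · intro j hj0 hjk
      have h3 := hkT (k - j) (by omega) (by omega)
      have h4 : (σ⁻¹ ^ j) d = (σ ^ (k - j)) e := by
        have h5 : (σ ^ k) e = (σ ^ j) ((σ ^ (k - j)) e) := by
          rw [← Perm.mul_apply, ← pow_add]
          congr 2
          omega
        rw [hk, inv_pow, Perm.inv_eq_iff_eq, h5]
      rw [h4]; exact h3

theorem removeLeft [Fintype D] {ρ τ : Perm D} (h : Euler ρ τ) (T : Finset D) :
    ∃ ρ' : Perm D, Euler ρ' τ ∧ IsInduced ρ ρ' T := by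
  induction T using Finset.induction_on with
  | empty =>
    refine ⟨ρ, h, fun z hz => absurd hz (Finset.notMem_empty z), fun d _ => ⟨1, Nat.one_pos, by simp,
      Finset.notMem_empty _, fun j h1 h2 => by omega⟩⟩
  | insert z T hz ih =>
    obtain ⟨ρT, hE, h1, h2⟩ := ih
    refine ⟨swap z (ρT z) * ρT, hE.step z, ?_, ?_⟩
    · intro t ht
      rw [Finset.mem_insert] at ht
      rw [Perm.mul_apply]
      rcases ht with rfl | ht
      · rw [swap_apply_right]
      · rw [h1 t ht]
        obtain ⟨_, _, _, h3, _⟩ := h2 z hz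
        apply swap_apply_of_ne_of_ne
        · rintro rfl; exact hz ht
        · rintro h4; rw [← h4] at h3; exact h3 ht
    · intro d hd
      rw [Finset.mem_insert, not_or] at hd
      obtain ⟨hdz, hdT⟩ := hd
      obtain ⟨k, hk0, hk, hkT, hkj⟩ := h2 d hdT
      obtain ⟨l, hl0, hl, hlT, hlj⟩ := h2 z hz
      rw [Perm.mul_apply]
      by_cases hdz' : ρT d = z
      · rw [hdz', swap_apply_left]
        refine ⟨l + k, by omega, ?_, ?_, ?_⟩
        · rw [hl, pow_add, Perm.mul_apply, ← hk, hdz']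
        · rw [Finset.mem_insert, not_or]
          refine ⟨?_, hlT⟩
          intro h4
          apply hdz
          exact ρT.injective (hdz'.trans h4.symm)
        · intro j hj0 hjk
          rw [Finset.mem_insert]
          rcases lt_trichotomy j k with hlt | heq | hgt
          · exact Or.inr (hkj j hj0 hlt)
          · left; rw [heq, ← hk, hdz']
          · right
            have h5 := hlj (j - k) (by omega) (by omega)
            have h6 : (ρ ^ j) d = (ρ ^ (j - k)) z := by
              rw [← hdz', hk, ← Perm.mul_apply, ← pow_add]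
              congr 2
              omega
            rw [h6]; exact h5
      · have h7 : ρT d ≠ ρT z := fun h => hdz (ρT.injective h)
        rw [swap_apply_of_ne_of_ne hdz' h7]
        refine ⟨k, hk0, hk, ?_, ?_⟩
        · rw [Finset.mem_insert, not_or]; exact ⟨hdz', hkT⟩
        · intro j hj0 hjk
          exact Finset.mem_insert_of_mem (hkj j hj0 hjk)

theorem removeRight [Fintype D] {ρ τ : Perm D} (h : Euler ρ τ) (T : Finset D) :
    ∃ τ' : Perm D, Euler ρ τ' ∧ IsInduced τ τ' T := by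
  obtain ⟨α, hα, hI⟩ := removeLeft h.inv T
  refine ⟨α⁻¹, ?_, ?_⟩
  · have := hα.inv
    rwa [inv_inv] at this
  · have := hI.inv
    rwa [inv_inv] at this

omit [DecidableEq D] in
theorem IsInduced.sameCycle [Finite D] {σ σ' : Perm D} {T : Finset D} (h : IsInduced σ σ' T)
    {d d' : D} (hd : d ∉ T) (hd' : d' ∉ T) : SameCycle σ' d d' ↔ SameCycle σ d d' := by
  obtain ⟨h1, h2⟩ := h
  constructor
  · intro hs
    have hle : SameCycle.setoid σ' ≤ SameCycle.setoid σ := by
      rw [sc_le_iff]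
      intro x
      by_cases hx : x ∈ T
      · rw [h1 x hx]
      · obtain ⟨k, _, hk, _⟩ := h2 x hx
        rw [hk]
        exact ⟨(k : ℤ), by simp⟩
    exact hle hs
  · intro hs
    obtain ⟨n, hn⟩ := hs.exists_nat_pow_eq
    have key : ∀ (n : ℕ) (d : D), d ∉ T → (σ ^ n) d = d' → SameCycle σ' d d' := by
      intro n
      induction n using Nat.strong_induction_on with
      | _ n ih =>
        intro d hd hn
        rcases Nat.eq_zero_or_pos n with rfl | hn0
        · rw [pow_zero] at hn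
          have : d = d' := hn
          rw [this]
        · obtain ⟨k, hk0, hk, hkT, hkj⟩ := h2 d hd
          have hkn : k ≤ n := by
            by_contra hcon
            push Not at hcon
            have := hkj n hn0 hcon
            rw [hn] at this
            exact hd' this
          have h3 : (σ ^ (n - k)) (σ' d) = d' := by
            rw [hk, ← Perm.mul_apply, ← pow_add, ← hn]
            congr 2
            omega
          have h4 := ih (n - k) (by omega) (σ' d) hkT h3
          exact (sameCycle_apply_left (f := σ')).mp h4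
    exact key n d hd hn

/-! ### Restricting to a subtype -/

section pullback

variable {D' : Type*}

omit [DecidableEq D] in
theorem exists_pullback [Finite D'] (ι : D' → D) (hι : Function.Injective ι) (σ : Perm D)
    (hfix : ∀ x, x ∉ Set.range ι → σ x = x) : ∃ σ' : Perm D', ∀ d, ι (σ' d) = σ (ι d) := by
  have h1 : ∀ d, ∃ e, ι e = σ (ι d) := by
    intro d
    by_contra hcon
    have h2 : σ (ι d) ∉ Set.range ι := hcon
    have h3 := hfix _ h2
    have h4 := σ.injective h3
    exact h2 (by rw [h4]; exact ⟨d, rfl⟩)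
  choose g hg using h1
  have hinj : Function.Injective g := by
    intro a b hab
    have := hg a
    rw [hab, hg b] at this
    exact hι (σ.injective this.symm)
  refine ⟨Equiv.ofBijective g (Finite.injective_iff_bijective.mp hinj), fun d => ?_⟩
  exact hg d

omit [DecidableEq D] in
theorem pull_sameCycle (ι : D' → D) (hι : Function.Injective ι) {σ : Perm D} {σ' : Perm D'}
    (h : ∀ d, ι (σ' d) = σ (ι d)) (d d' : D') :
    SameCycle σ' d d' ↔ SameCycle σ (ι d) (ι d') := by
  have hn : ∀ (n : ℕ) (d : D'), ι ((σ' ^ n) d) = (σ ^ n) (ι d) := by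
    intro n
    induction n with
    | zero => intro d; rfl
    | succ n ih => intro d; rw [pow_succ', Perm.mul_apply, h, ih, pow_succ', Perm.mul_apply]
  constructor
  · rintro ⟨i, hi⟩
    rcases i with n | n
    · rw [Int.ofNat_eq_natCast, zpow_natCast] at hi
      exact ⟨(n : ℤ), by rw [zpow_natCast, ← hn, hi]⟩
    · rw [zpow_negSucc, Perm.inv_eq_iff_eq] at hi
      refine ⟨Int.negSucc n, ?_⟩
      rw [zpow_negSucc, Perm.inv_eq_iff_eq, hi, hn]
  · rintro ⟨i, hi⟩
    rcases i with n | n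
    · rw [Int.ofNat_eq_natCast, zpow_natCast, ← hn] at hi
      exact ⟨(n : ℤ), by rw [zpow_natCast]; exact hι hi⟩
    · rw [zpow_negSucc, Perm.inv_eq_iff_eq, ← hn] at hi
      refine ⟨Int.negSucc n, ?_⟩
      rw [zpow_negSucc, Perm.inv_eq_iff_eq]
      exact hι hi

omit [DecidableEq D] in
theorem card_pull [Finite D] (ι : D' → D) (hι : Function.Injective ι) (s : Setoid D)
    (hs : ∀ x, x ∉ Set.range ι → ∀ y, s x y → x = y) :
    Nat.card (Quotient s) + Nat.card D' = Nat.card (Quotient (s.comap ι)) + Nat.card D := by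
  classical
  have : Finite D' := Finite.of_injective ι hι
  have h1 : Nat.card D = Nat.card D' + Nat.card {x // x ∉ Set.range ι} := by
    rw [← Nat.card_sum]
    refine Nat.card_congr (Equiv.ofBijective
      (Sum.elim ι (fun x : {x // x ∉ Set.range ι} => x.1)) ⟨?_, ?_⟩).symm
    · rintro (a | ⟨a, ha⟩) (b | ⟨b, hb⟩) h
      · exact congrArg Sum.inl (hι h)
      · exact absurd ⟨a, h⟩ hb
      · exact absurd ⟨b, h.symm⟩ ha
      · exact congrArg Sum.inr (Subtype.ext h)
    · intro x
      by_cases hx : x ∈ Set.range ι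
      · obtain ⟨d, hd⟩ := hx
        exact ⟨Sum.inl d, hd⟩
      · exact ⟨Sum.inr ⟨x, hx⟩, rfl⟩
  have h2 : Nat.card (Quotient s) = Nat.card (Quotient (s.comap ι))
      + Nat.card {x // x ∉ Set.range ι} := by
    rw [← Nat.card_sum]
    let f : Quotient (s.comap ι) ⊕ {x // x ∉ Set.range ι} → Quotient s :=
      Sum.elim (fun q => Quotient.map' (s₁ := s.comap ι) (s₂ := s) ι (fun _ _ h => h) q)
        (fun x => Quotient.mk s x.1)
    have hf1 : ∀ x, f (Sum.inl (Quotient.mk (s.comap ι) x)) = Quotient.mk s (ι x) := fun _ => rfl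
    have hf2 : ∀ x, f (Sum.inr x) = Quotient.mk s x.1 := fun _ => rfl
    refine Nat.card_congr (Equiv.ofBijective f ⟨?_, ?_⟩).symm
    · rintro (a | ⟨a, ha⟩) (b | ⟨b, hb⟩) h
      · induction a using Quotient.inductionOn with | _ x =>
        induction b using Quotient.inductionOn with | _ y =>
        rw [hf1, hf1] at h
        have h3 : s (ι x) (ι y) := Quotient.exact h
        exact congrArg Sum.inl (Quotient.sound h3)
      · induction a using Quotient.inductionOn with | _ x =>
        rw [hf1, hf2] at h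
        have h3 : s (ι x) b := Quotient.exact h
        have h4 := hs b hb _ (s.symm h3)
        exact absurd ⟨x, h4.symm⟩ hb
      · induction b using Quotient.inductionOn with | _ x =>
        rw [hf1, hf2] at h
        have h3 : s a (ι x) := Quotient.exact h
        have h4 := hs a ha _ h3
        exact absurd ⟨x, h4.symm⟩ ha
      · rw [hf2, hf2] at h
        have h3 : s a b := Quotient.exact h
        exact congrArg Sum.inr (Subtype.ext (hs a ha _ h3))
    · intro q
      induction q using Quotient.inductionOn with | _ x =>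
      by_cases hx : x ∈ Set.range ι
      · obtain ⟨d, rfl⟩ := hx
        exact ⟨Sum.inl (Quotient.mk _ d), rfl⟩
      · exact ⟨Sum.inr ⟨x, hx⟩, rfl⟩
  omega

omit [DecidableEq D] in
theorem comap_sc (ι : D' → D) (hι : Function.Injective ι) {σ : Perm D} {σ' : Perm D'}
    (h : ∀ d, ι (σ' d) = σ (ι d)) :
    (SameCycle.setoid σ).comap ι = SameCycle.setoid σ' := by
  ext x y
  exact (pull_sameCycle ι hι h x y).symm

omit [DecidableEq D] in
/-- the equivalence relation on `D` which is the image of `s'` -/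
theorem exists_image (ι : D' → D) (hι : Function.Injective ι) (s' : Setoid D') :
    ∃ t : Setoid D, (∀ x y, t (ι x) (ι y) ↔ s' x y) ∧ (∀ x, x ∉ Set.range ι → ∀ y, t x y → x = y)
      := by
  refine ⟨⟨fun u v => u = v ∨ ∃ x y, u = ι x ∧ v = ι y ∧ s' x y, ?_, ?_, ?_⟩, ?_, ?_⟩
  · intro u; exact Or.inl rfl
  · rintro u v (h | ⟨x, y, hx, hy, h⟩)
    · exact Or.inl h.symm
    · exact Or.inr ⟨y, x, hy, hx, s'.symm h⟩
  · rintro u v w (h | ⟨x, y, hx, hy, h⟩) (h' | ⟨x', y', hx', hy', h'⟩)
    · exact Or.inl (h.trans h')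
    · exact Or.inr ⟨x', y', h.trans hx', hy', h'⟩
    · exact Or.inr ⟨x, y, hx, h'.symm.trans hy, h⟩
    · have : y = x' := hι (hy.symm.trans hx')
      subst this
      exact Or.inr ⟨x, y', hx, hy', s'.trans h h'⟩
  · intro x y
    constructor
    · rintro (h | ⟨a, b, ha, hb, h⟩)
      · rw [hι h]
      · rw [hι ha, hι hb]; exact h
    · intro h; exact Or.inr ⟨x, y, rfl, rfl, h⟩
  · rintro x hx y (h | ⟨a, b, ha, hb, h⟩)
    · exact h
    · exact absurd ⟨a, ha.symm⟩ hx

omit [DecidableEq D] in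
theorem Euler.pullback [Finite D] (ι : D' → D) (hι : Function.Injective ι) {ρ τ : Perm D}
    {ρ' τ' : Perm D'} (hρ : ∀ d, ι (ρ' d) = ρ (ι d)) (hτ : ∀ d, ι (τ' d) = τ (ι d))
    (hρf : ∀ x, x ∉ Set.range ι → ρ x = x) (hτf : ∀ x, x ∉ Set.range ι → τ x = x)
    (h : Euler ρ τ) : Euler ρ' τ' := by
  have hfix : ∀ σ : Perm D, (∀ x, x ∉ Set.range ι → σ x = x) →
      ∀ x, x ∉ Set.range ι → ∀ y, (SameCycle.setoid σ) x y → x = y := by
    intro σ hσ x hx y hxy
    exact SameCycle.eq_of_left hxy (hσ x hx)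
  have hcyc : ∀ (σ : Perm D) (σ' : Perm D'), (∀ d, ι (σ' d) = σ (ι d)) →
      (∀ x, x ∉ Set.range ι → σ x = x) → cyc σ + Nat.card D' = cyc σ' + Nat.card D := by
    intro σ σ' hσ hσf
    have := card_pull ι hι (SameCycle.setoid σ) (hfix σ hσf)
    rw [comap_sc ι hι hσ] at this
    exact this
  have h1 := hcyc ρ ρ' hρ hρf
  have h2 := hcyc τ τ' hτ hτf
  have h3 := hcyc (ρ * τ) (ρ' * τ') (fun d => by rw [Perm.mul_apply, hρ, hτ, Perm.mul_apply])
    (fun x hx => by rw [Perm.mul_apply, hτf x hx, hρf x hx])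
  -- components
  obtain ⟨t, ht1, ht2⟩ := exists_image ι hι (SameCycle.setoid ρ' ⊔ SameCycle.setoid τ')
  have hJ : SameCycle.setoid ρ ⊔ SameCycle.setoid τ = t := by
    apply le_antisymm
    · have key : ∀ (σ : Perm D) (σ' : Perm D'), (∀ d, ι (σ' d) = σ (ι d)) →
          (∀ x, x ∉ Set.range ι → σ x = x) →
          SameCycle.setoid σ' ≤ SameCycle.setoid ρ' ⊔ SameCycle.setoid τ' →
          SameCycle.setoid σ ≤ t := by
        intro σ σ' hσ hσf hle
        rw [sc_le_iff]
        intro x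
        by_cases hx : x ∈ Set.range ι
        · obtain ⟨d, rfl⟩ := hx
          rw [← hσ, ht1]
          exact hle (sc_apply σ' d)
        · rw [hσf x hx]
      exact sup_le (key ρ ρ' hρ hρf le_sup_left) (key τ τ' hτ hτf le_sup_right)
    · intro x y hxy
      by_cases hx : x ∈ Set.range ι
      · by_cases hy : y ∈ Set.range ι
        · obtain ⟨a, rfl⟩ := hx
          obtain ⟨b, rfl⟩ := hy
          rw [ht1] at hxy
          have hle : SameCycle.setoid ρ' ⊔ SameCycle.setoid τ'
              ≤ (SameCycle.setoid ρ ⊔ SameCycle.setoid τ).comap ι := by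
            apply sup_le
            · rw [← comap_sc ι hι hρ]
              intro u v huv
              exact (le_sup_left : SameCycle.setoid ρ ≤ _) huv
            · rw [← comap_sc ι hι hτ]
              intro u v huv
              exact (le_sup_right : SameCycle.setoid τ ≤ _) huv
          exact hle hxy
        · have := ht2 y hy x (t.symm hxy)
          rw [this]
      · have := ht2 x hx y hxy
        rw [this]
  have h4 : comps ρ τ + Nat.card D' = comps ρ' τ' + Nat.card D := by
    have := card_pull ι hι t ht2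
    have h5 : t.comap ι = SameCycle.setoid ρ' ⊔ SameCycle.setoid τ' := by
      ext x y; exact ht1 x y
    rw [h5, ← hJ] at this
    exact this
  unfold Euler at h ⊢
  omega

/-- **Restriction of a planar hypermap to a subset of darts.** -/
theorem Euler.restrict [Fintype D] (ι : D' → D) (hι : Function.Injective ι) {ρ τ : Perm D}
    (h : Euler ρ τ) : ∃ ρ' τ' : Perm D', Euler ρ' τ' ∧
      (∀ d, ∃ k : ℕ, 0 < k ∧ ι (ρ' d) = (ρ ^ k) (ι d) ∧
        ∀ j, 0 < j → j < k → (ρ ^ j) (ι d) ∉ Set.range ι) ∧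
      (∀ d, ∃ k : ℕ, 0 < k ∧ ι (τ' d) = (τ ^ k) (ι d) ∧
        ∀ j, 0 < j → j < k → (τ ^ j) (ι d) ∉ Set.range ι) ∧
      (∀ d d', SameCycle ρ' d d' ↔ SameCycle ρ (ι d) (ι d')) := by
  classical
  have : Finite D' := Finite.of_injective ι hι
  let T : Finset D := Finset.univ.filter (fun x => x ∉ Set.range ι)
  have hT : ∀ x, x ∈ T ↔ x ∉ Set.range ι := by intro x; simp [T]
  obtain ⟨ρ1, hρ1, hIρ⟩ := removeLeft h T
  obtain ⟨τ1, hτ1, hIτ⟩ := removeRight hρ1 T
  obtain ⟨ρ', hρ'⟩ := exists_pullback ι hι ρ1 (fun x hx => hIρ.1 x ((hT x).mpr hx))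
  obtain ⟨τ', hτ'⟩ := exists_pullback ι hι τ1 (fun x hx => hIτ.1 x ((hT x).mpr hx))
  have hd : ∀ d, ι d ∉ T := fun d => by rw [hT]; exact fun h => h ⟨d, rfl⟩
  refine ⟨ρ', τ', ?_, ?_, ?_, ?_⟩
  · exact Euler.pullback ι hι hρ' hτ' (fun x hx => hIρ.1 x ((hT x).mpr hx))
      (fun x hx => hIτ.1 x ((hT x).mpr hx)) hτ1
  · intro d
    obtain ⟨k, hk0, hk, _, hkj⟩ := hIρ.2 (ι d) (hd d)
    exact ⟨k, hk0, by rw [hρ', hk], fun j h1 h2 => (hT _).mp (hkj j h1 h2)⟩
  · intro d
    obtain ⟨k, hk0, hk, _, hkj⟩ := hIτ.2 (ι d) (hd d)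
    exact ⟨k, hk0, by rw [hτ', hk], fun j h1 h2 => (hT _).mp (hkj j h1 h2)⟩
  · intro d d'
    rw [pull_sameCycle ι hι hρ', hIρ.sameCycle (hd d) (hd d')]

end pullback

end Pool.Agent.Lib_helper59.Hyper
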