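import Mathlib
import Pool.Agent.Lib_helper59.Hyper

/-! # One-plane hypermaps -/

namespace Pool.Agent.Lib_helper59.OnePlane

open Equiv Equiv.Perm Pool.Agent.Lib_helper59.Hyper

/-- A one-plane hypermap on the darts of `H`: `ρ` rotates around vertices, `τ` is the reversal on
darts of uncrossed edges and rotates around the crossing point on darts of crossed edges. -/
structure OPM {V : Type*} (H : SimpleGraph V) where
  ρ : Perm H.Dart
  τ : Perm H.Dart
  rot : ∀ d d' : H.Dart, SameCycle ρ d d' ↔ d.fst = d'.fst
  cross : ∀ d : H.Dart, τ d = d.symm ∨ (τ (τ d) = d.symm ∧ (τ d).fst ≠ d.fst ∧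
    (τ d).fst ≠ d.snd ∧ (τ d).snd ≠ d.fst ∧ (τ d).snd ≠ d.snd)
  euler : Euler ρ τ

section sub

variable {V V' : Type*} {H : SimpleGraph V} {H' : SimpleGraph V'}

/-- the map on darts induced by an injective homomorphism -/
def dmap (f : V' → V) (hf : ∀ a b, H'.Adj a b → H.Adj (f a) (f b)) (d : H'.Dart) : H.Dart :=
  ⟨(f d.fst, f d.snd), hf _ _ d.adj⟩

theorem dmap_symm (f : V' → V) (hf : ∀ a b, H'.Adj a b → H.Adj (f a) (f b)) (d : H'.Dart) :
    dmap f hf d.symm = (dmap f hf d).symm := rfl

theorem dmap_injective (f : V' → V) (hf : ∀ a b, H'.Adj a b → H.Adj (f a) (f b))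
    (hinj : Function.Injective f) : Function.Injective (dmap f hf) := by
  intro d d' h
  have h1 : (dmap f hf d).fst = (dmap f hf d').fst := by rw [h]
  have h2 : (dmap f hf d).snd = (dmap f hf d').snd := by rw [h]
  exact SimpleGraph.Dart.ext _ _ (Prod.ext (hinj h1) (hinj h2))

/-- **Subgraphs.** One-plane hypermaps restrict to subgraphs. -/
theorem OPM.sub [Fintype H.Dart] (M : OPM H) (f : V' → V)
    (hf : ∀ a b, H'.Adj a b → H.Adj (f a) (f b)) (hinj : Function.Injective f) :
    Nonempty (OPM H') := by
  classical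
  let ι := dmap f hf
  have hι : Function.Injective ι := dmap_injective f hf hinj
  obtain ⟨ρ', τ', hE, hρ, hτ, hsc⟩ := M.euler.restrict ι hι
  -- specification of `τ'`
  have hτ1 : ∀ d, M.τ (ι d) ∈ Set.range ι → ι (τ' d) = M.τ (ι d) := by
    intro d hd
    obtain ⟨k, hk0, hk, hkj⟩ := hτ d
    have : k = 1 := by
      by_contra hne
      exact hkj 1 Nat.one_pos (by omega) (by rw [pow_one]; exact hd)
    rw [hk, this, pow_one]
  have hτ2 : ∀ d, M.τ (ι d) ∉ Set.range ι → M.τ (M.τ (ι d)) ∈ Set.range ι →
      ι (τ' d) = M.τ (M.τ (ι d)) := by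
    intro d hd hd2
    obtain ⟨k, hk0, hk, hkj⟩ := hτ d
    have hk1 : k ≠ 1 := by
      rintro rfl
      rw [pow_one] at hk
      exact hd ⟨_, hk⟩
    have : k = 2 := by
      by_contra hne
      refine hkj 2 (by omega) (by omega) ?_
      rw [pow_two, Perm.mul_apply]; exact hd2
    rw [hk, this, pow_two, Perm.mul_apply]
  refine ⟨⟨ρ', τ', ?_, ?_, hE⟩⟩
  · intro d d'
    rw [hsc, M.rot]
    exact ⟨fun h => hinj h, fun h => congrArg f h⟩
  · intro d
    rcases M.cross (ι d) with h | ⟨h1, h2, h3, h4, h5⟩
    · left
      apply hι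
      rw [hτ1 d ⟨d.symm, by rw [h]; exact dmap_symm f hf d⟩, h]
      exact (dmap_symm f hf d).symm
    · by_cases hr : M.τ (ι d) ∈ Set.range ι
      · right
        have h6 := hτ1 d hr
        rw [← h6] at h1 h2 h3 h4 h5
        refine ⟨?_, fun h => h2 (congrArg f h), fun h => h3 (congrArg f h),
          fun h => h4 (congrArg f h), fun h => h5 (congrArg f h)⟩
        apply hι
        rw [hτ1 (τ' d) ⟨d.symm, by rw [h1]; exact dmap_symm f hf d⟩, h1]
        exact (dmap_symm f hf d).symm
      · left
        apply hι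
        rw [hτ2 d hr ⟨d.symm, by rw [h1]; exact dmap_symm f hf d⟩, h1]
        exact (dmap_symm f hf d).symm

end sub

/-! ### Weights on cycles -/

section weights

variable {D : Type*} [Fintype D] [DecidableEq D]

/-- total weight of the cycle of `d` -/
def W (σ : Perm D) (w : D → ℕ) (d : D) : ℕ := ∑ x ∈ Finset.univ.filter (fun x => SameCycle σ d x), w x

theorem W_congr (σ : Perm D) (w : D → ℕ) {d d' : D} (h : SameCycle σ d d') :
    W σ w d = W σ w d' := by
  unfold W
  congr 1
  ext x
  simp only [Finset.mem_filter, Finset.mem_univ, true_and]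
  exact ⟨fun h' => h.symm.trans h', fun h' => h.trans h'⟩

theorem le_W (σ : Perm D) (w : D → ℕ) (d : D) (S : Finset D) (hS : ∀ x ∈ S, SameCycle σ d x) :
    ∑ x ∈ S, w x ≤ W σ w d := by
  apply Finset.sum_le_sum_of_subset
  intro x hx
  simp [hS x hx]

theorem sum_W (σ : Perm D) (w : D → ℕ) (g : D → ℕ) (hg : ∀ d d', SameCycle σ d d' → g d = g d')
    (h : ∀ d, g d ≤ W σ w d) :
    ∃ q : Quotient (SameCycle.setoid σ) → ℕ, (∀ d, q (Quotient.mk _ d) = g d) ∧
      ∑ᶠ x, q x ≤ ∑ x, w x := by
  classical
  let q : Quotient (SameCycle.setoid σ) → ℕ := Quotient.lift g (fun a b h => hg a b h)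
  have : Fintype (Quotient (SameCycle.setoid σ)) := Fintype.ofFinite _
  refine ⟨q, fun d => rfl, ?_⟩
  rw [finsum_eq_sum_of_fintype]
  rw [← Finset.sum_fiberwise (s := Finset.univ) (g := fun d => Quotient.mk (SameCycle.setoid σ) d)]
  apply Finset.sum_le_sum
  intro x _
  induction x using Quotient.inductionOn with | _ d =>
  refine (h d).trans (le_of_eq ?_)
  unfold W
  congr 1
  ext x
  simp only [Finset.mem_filter, Finset.mem_univ, true_and]
  constructor
  · intro h'; exact (Quotient.sound (s := SameCycle.setoid σ) h').symm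
  · intro h'; exact (Quotient.exact h' : (SameCycle.setoid σ) x d).symm

/-- if every cycle has weight at least `m` then `m * (number of cycles) ≤ total weight`. -/
theorem mul_cyc_le (σ : Perm D) (w : D → ℕ) (m : ℕ) (h : ∀ d, m ≤ W σ w d) :
    m * cyc σ ≤ ∑ x, w x := by
  classical
  obtain ⟨q, hq, hle⟩ := sum_W σ w (fun _ => m) (fun _ _ _ => rfl) h
  have : Fintype (Quotient (SameCycle.setoid σ)) := Fintype.ofFinite _
  have h1 : ∑ᶠ x, q x = m * cyc σ := by
    rw [finsum_eq_sum_of_fintype]
    have h2 : ∀ x, q x = m := by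
      intro x
      induction x using Quotient.inductionOn with | _ d =>
      exact hq d
    rw [Finset.sum_congr rfl (fun x _ => h2 x), Finset.sum_const, smul_eq_mul, Finset.card_univ,
      cyc, Nat.card_eq_fintype_card, mul_comm]
  omega

/-- the same with an additional excess at one cycle -/
theorem mul_cyc_le_one (σ : Perm D) (w : D → ℕ) (m : ℕ) (h : ∀ d, m ≤ W σ w d) (a : D) :
    m * cyc σ + (W σ w a - m) ≤ ∑ x, w x := by
  classical
  obtain ⟨q, hq, hle⟩ := sum_W σ w (fun d => m + if SameCycle σ a d then W σ w a - m else 0)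
    (fun d d' hd => by
      have : SameCycle σ a d ↔ SameCycle σ a d' := ⟨fun h => h.trans hd, fun h => h.trans hd.symm⟩
      simp only [this]) (fun d => by
      have := h d
      by_cases hd : SameCycle σ a d
      · simp only [hd, if_true]
        rw [W_congr σ w hd]
        omega
      · simp only [hd, if_false]; omega)
  have : Fintype (Quotient (SameCycle.setoid σ)) := Fintype.ofFinite _
  have h1 : ∑ᶠ x, q x = m * cyc σ + (W σ w a - m) := by
    rw [finsum_eq_sum_of_fintype]
    have h2 : ∀ x, q x = m + if x = Quotient.mk (SameCycle.setoid σ) a then W σ w a - m else 0 := by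
      intro x
      induction x using Quotient.inductionOn with | _ d =>
      rw [hq d]
      have : SameCycle σ a d ↔ Quotient.mk (SameCycle.setoid σ) d
          = Quotient.mk (SameCycle.setoid σ) a :=
        ⟨fun h => (Quotient.sound (s := SameCycle.setoid σ) h).symm,
          fun h => (Quotient.exact h : (SameCycle.setoid σ) d a).symm⟩
      simp only [this]
    rw [Finset.sum_congr rfl (fun x _ => h2 x), Finset.sum_add_distrib, Finset.sum_const,
      smul_eq_mul, Finset.card_univ, cyc, Nat.card_eq_fintype_card, mul_comm,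
      Finset.sum_ite_eq' Finset.univ]
    simp
  omega

/-- the same with an additional excess at two cycles -/
theorem mul_cyc_le_two (σ : Perm D) (w : D → ℕ) (m : ℕ) (h : ∀ d, m ≤ W σ w d) (a b : D)
    (hab : ¬ SameCycle σ a b) :
    m * cyc σ + (W σ w a - m) + (W σ w b - m) ≤ ∑ x, w x := by
  classical
  obtain ⟨q, hq, hle⟩ := sum_W σ w (fun d => m + (if SameCycle σ a d then W σ w a - m else 0)
      + (if SameCycle σ b d then W σ w b - m else 0))
    (fun d d' hd => by
      have h1 : SameCycle σ a d ↔ SameCycle σ a d' :=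
        ⟨fun h => h.trans hd, fun h => h.trans hd.symm⟩
      have h2 : SameCycle σ b d ↔ SameCycle σ b d' :=
        ⟨fun h => h.trans hd, fun h => h.trans hd.symm⟩
      simp only [h1, h2]) (fun d => by
      have := h d
      by_cases hd : SameCycle σ a d
      · have hd' : ¬ SameCycle σ b d := fun h => hab (hd.trans h.symm)
        simp only [hd, hd', if_true, if_false]
        rw [W_congr σ w hd]
        omega
      · by_cases hd' : SameCycle σ b d
        · simp only [hd, hd', if_false, if_true]
          rw [W_congr σ w hd']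
          omega
        · simp only [hd, hd', if_false]; omega)
  have : Fintype (Quotient (SameCycle.setoid σ)) := Fintype.ofFinite _
  have h1 : ∑ᶠ x, q x = m * cyc σ + (W σ w a - m) + (W σ w b - m) := by
    rw [finsum_eq_sum_of_fintype]
    have h2 : ∀ x, q x = m + (if x = Quotient.mk (SameCycle.setoid σ) a then W σ w a - m else 0)
        + (if x = Quotient.mk (SameCycle.setoid σ) b then W σ w b - m else 0) := by
      intro x
      induction x using Quotient.inductionOn with | _ d =>
      rw [hq d]
      have h3 : ∀ c, SameCycle σ c d ↔ Quotient.mk (SameCycle.setoid σ) d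
          = Quotient.mk (SameCycle.setoid σ) c := fun c =>
        ⟨fun h => (Quotient.sound (s := SameCycle.setoid σ) h).symm,
          fun h => (Quotient.exact h : (SameCycle.setoid σ) d c).symm⟩
      simp only [h3]
    rw [Finset.sum_congr rfl (fun x _ => h2 x), Finset.sum_add_distrib, Finset.sum_add_distrib,
      Finset.sum_const, smul_eq_mul, Finset.card_univ, cyc, Nat.card_eq_fintype_card, mul_comm,
      Finset.sum_ite_eq' Finset.univ, Finset.sum_ite_eq' Finset.univ]
    simp
  omega

end weights

end Pool.Agent.Lib_helper59.OnePlane
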