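import Mathlib
import Pool.Agent.Lib_helper59.OnePlane

/-! # Counting in one-plane hypermaps -/

namespace Pool.Agent.Lib_helper59.OnePlane

open Equiv Equiv.Perm Pool.Agent.Lib_helper59.Hyper

namespace OPM

variable {V : Type*} {H : SimpleGraph V} (M : OPM H)

/-- faces -/
def φ : Perm H.Dart := M.ρ * M.τ

/-- uncrossed darts -/
def U (d : H.Dart) : Prop := M.τ d = d.symm

/-- crossed darts -/
def K (d : H.Dart) : Prop := M.τ d ≠ d.symm

theorem rho_fst (d : H.Dart) : (M.ρ d).fst = d.fst := by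
  have : SameCycle M.ρ d (M.ρ d) := ⟨1, by simp⟩
  exact ((M.rot _ _).mp this).symm

theorem phi_fst (d : H.Dart) : (M.φ d).fst = (M.τ d).fst := M.rho_fst (M.τ d)

theorem fst_ne_snd (d : H.Dart) : d.fst ≠ d.snd := d.adj.ne

theorem tau_fst_ne (d : H.Dart) : (M.τ d).fst ≠ d.fst := by
  rcases M.cross d with h | ⟨_, h, _⟩
  · rw [h]; exact (d.adj.ne).symm
  · exact h

theorem tau_ne (d : H.Dart) : M.τ d ≠ d := fun h => M.tau_fst_ne d (by rw [h])

theorem phi_ne (d : H.Dart) : M.φ d ≠ d := by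
  intro h
  apply M.tau_fst_ne d
  rw [← M.phi_fst, h]

theorem symm_ne (d : H.Dart) : d.symm ≠ d := by
  intro h
  have : d.symm.fst = d.fst := by rw [h]
  exact d.adj.ne this.symm

variable {M}

theorem K.cross {d : H.Dart} (h : M.K d) : M.τ (M.τ d) = d.symm ∧ (M.τ d).fst ≠ d.fst ∧
    (M.τ d).fst ≠ d.snd ∧ (M.τ d).snd ≠ d.fst ∧ (M.τ d).snd ≠ d.snd := by
  rcases M.cross d with h' | h'
  · exact absurd h' h
  · exact h'

theorem K.tau {d : H.Dart} (h : M.K d) : M.K (M.τ d) := by
  intro h'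
  obtain ⟨h1, h2, _⟩ := h.cross
  rw [h1] at h'
  apply h2
  have : d.symm.symm = (M.τ d).symm.symm := by rw [h']
  rw [SimpleGraph.Dart.symm_symm, SimpleGraph.Dart.symm_symm] at this
  rw [← this]

theorem K.symm {d : H.Dart} (h : M.K d) : M.K d.symm := by
  rw [← h.cross.1]; exact h.tau.tau

theorem K.tau_symm {d : H.Dart} (h : M.K d) : M.τ d.symm = (M.τ d).symm := by
  rw [← h.cross.1]; exact h.tau.cross.1

theorem K.tau_tau_symm {d : H.Dart} (h : M.K d) : M.τ (M.τ d).symm = d := by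
  rw [h.tau.tau_symm, h.cross.1, SimpleGraph.Dart.symm_symm]

theorem K.tau_inv {d : H.Dart} (h : M.K d) : M.τ⁻¹ d = (M.τ d).symm := by
  rw [Perm.inv_eq_iff_eq]; exact h.tau_tau_symm.symm

theorem not_U {d : H.Dart} : ¬ M.U d ↔ M.K d := Iff.rfl

theorem not_K {d : H.Dart} : ¬ M.K d ↔ M.U d := not_not

theorem U.symm {d : H.Dart} (h : M.U d) : M.U d.symm := by
  by_contra hcon
  have h1 : M.K d.symm := hcon
  have h2 := h1.symm
  rw [SimpleGraph.Dart.symm_symm] at h2
  exact h2 h

theorem U.tau_symm {d : H.Dart} (h : M.U d) : M.τ d.symm = d := by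
  have := h.symm
  unfold U at this
  rw [this, SimpleGraph.Dart.symm_symm]

theorem U.tau_inv {d : H.Dart} (h : M.U d) : M.τ⁻¹ d = d.symm := by
  rw [Perm.inv_eq_iff_eq]; exact h.tau_symm.symm

variable (M)

theorem phi_tau_inv (d : H.Dart) : M.φ (M.τ⁻¹ d) = M.ρ d := by
  unfold φ
  rw [Perm.mul_apply]
  congr 1
  exact Equiv.apply_symm_apply M.τ d

theorem sc_phi (d : H.Dart) : SameCycle M.φ d (M.φ d) := ⟨1, by simp⟩

theorem sc_phi2 (d : H.Dart) : SameCycle M.φ d (M.φ (M.φ d)) := (M.sc_phi d).trans (M.sc_phi _)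

theorem sc_tau (d : H.Dart) : SameCycle M.τ d (M.τ d) := ⟨1, by simp⟩

/-- there are no digons with two uncrossed sides -/
theorem UU (hdeg : ∀ d, M.ρ d ≠ d) {d : H.Dart} (h1 : M.U d) (h2 : M.U (M.φ d))
    (h3 : M.φ (M.φ d) = d) : False := by
  have h4 : M.φ d = M.ρ d.symm := by
    unfold φ; rw [Perm.mul_apply]; rw [h1]
  have h5 : M.φ (M.φ d) = M.ρ (M.φ d).symm := by
    conv_lhs => unfold φ
    rw [Perm.mul_apply]; 
    congr 1
  have h6 : (M.φ d).fst = d.snd := by rw [h4, M.rho_fst]; rfl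
  have h7 : (M.φ d).snd = d.fst := by
    have : (M.ρ (M.φ d).symm).fst = d.fst := by rw [← h5, h3]
    rw [M.rho_fst] at this
    exact this
  have h8 : M.φ d = d.symm := SimpleGraph.Dart.ext _ _ (Prod.ext h6 h7)
  exact hdeg d.symm (h4.symm.trans h8)

set_option linter.unusedSectionVars false

section count

variable [Fintype H.Dart] [DecidableEq H.Dart]

open Classical in
/-- number of crossed darts -/
noncomputable def kk : ℕ := ∑ d, if M.K d then 1 else 0

theorem card_tau : 4 * cyc M.τ + M.kk ≤ 2 * Fintype.card H.Dart := by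
  classical
  have h1 : 4 * cyc M.τ ≤ ∑ d, if M.K d then 1 else 2 := by
    apply mul_cyc_le
    intro d
    by_cases hd : M.K d
    · obtain ⟨h1, h2, h3, h4, h5⟩ := hd.cross
      have hn : ({d, M.τ d, d.symm, (M.τ d).symm} : Finset H.Dart).card = 4 := by
        rw [Finset.card_insert_of_notMem, Finset.card_insert_of_notMem,
          Finset.card_insert_of_notMem, Finset.card_singleton]
        · rw [Finset.mem_singleton]
          intro h
          exact h5 (congrArg (fun e : H.Dart => e.fst) h).symm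
        · rw [Finset.mem_insert, Finset.mem_singleton, not_or]
          exact ⟨fun h => h3 (congrArg (fun e : H.Dart => e.fst) h), fun h => symm_ne _ h.symm⟩
        · rw [Finset.mem_insert, Finset.mem_insert, Finset.mem_singleton, not_or, not_or]
          exact ⟨fun h => h2 (congrArg (fun e : H.Dart => e.fst) h).symm, fun h => symm_ne _ h.symm,
            fun h => h4 (congrArg (fun e : H.Dart => e.fst) h).symm⟩
      refine le_trans ?_ (le_W M.τ _ d {d, M.τ d, d.symm, (M.τ d).symm} ?_)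
      · rw [← hn, Finset.card_eq_sum_ones]
        apply Finset.sum_le_sum
        intro x _
        split_ifs <;> omega
      · intro x hx
        simp only [Finset.mem_insert, Finset.mem_singleton] at hx
        rcases hx with rfl | rfl | rfl | rfl
        · exact SameCycle.refl _ _
        · exact M.sc_tau _
        · rw [← h1]; exact (M.sc_tau _).trans (M.sc_tau _)
        · rw [← hd.tau_symm, ← h1]
          exact ((M.sc_tau _).trans (M.sc_tau _)).trans (M.sc_tau _)
    · rw [not_K] at hd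
      refine le_trans ?_ (le_W M.τ _ d {d, d.symm} ?_)
      · rw [Finset.sum_pair (symm_ne d).symm, if_neg (not_K.mpr hd), if_neg (not_K.mpr hd.symm)]
      · intro x hx
        simp only [Finset.mem_insert, Finset.mem_singleton] at hx
        rcases hx with rfl | rfl
        · exact SameCycle.refl _ _
        · have := M.sc_tau d
          rwa [hd] at this
  have h2 : (∑ d, if M.K d then 1 else 2) + M.kk = 2 * Fintype.card H.Dart := by
    unfold kk
    rw [← Finset.sum_add_distrib, mul_comm, ← smul_eq_mul, ← Finset.card_univ, ← Finset.sum_const]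
    apply Finset.sum_congr rfl
    intro x _
    split_ifs <;> rfl
  omega

theorem cyc_rho_le [Finite V] : cyc M.ρ ≤ Nat.card V := by
  unfold cyc
  apply Nat.card_le_card_of_injective (fun q => Quotient.lift (s := SameCycle.setoid M.ρ)
    (fun d : H.Dart => d.fst) (fun a b h => (M.rot a b).mp h) q)
  intro q q' h
  induction q using Quotient.inductionOn with | _ d =>
  induction q' using Quotient.inductionOn with | _ d' =>
  exact Quotient.sound ((M.rot d d').mpr h)

omit [DecidableEq H.Dart] in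
theorem comps_pos [Nonempty H.Dart] : 1 ≤ comps M.ρ M.τ := by
  unfold comps
  have : Nonempty (Quotient (SameCycle.setoid M.ρ ⊔ SameCycle.setoid M.τ)) :=
    ⟨Quotient.mk _ (Classical.arbitrary H.Dart)⟩
  exact Nat.card_pos

theorem star [Nonempty H.Dart] :
    2 * Fintype.card H.Dart + M.kk + 8 ≤ 4 * cyc M.φ + 4 * cyc M.ρ := by
  have h1 := M.euler
  unfold Euler at h1
  have h2 := M.card_tau
  have h4 := M.comps_pos
  rw [Nat.card_eq_fintype_card] at h1
  have h5 : cyc (M.ρ * M.τ) = cyc M.φ := rfl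
  rw [h5] at h1
  omega

theorem two_cyc_phi : 2 * cyc M.φ ≤ Fintype.card H.Dart := by
  have h1 : 2 * cyc M.φ ≤ ∑ _d : H.Dart, 1 := by
    apply mul_cyc_le
    intro d
    refine le_trans ?_ (le_W M.φ _ d {d, M.φ d} ?_)
    · rw [Finset.sum_pair (M.phi_ne d).symm]
    · intro x hx
      simp only [Finset.mem_insert, Finset.mem_singleton] at hx
      rcases hx with rfl | rfl
      · exact SameCycle.refl _ _
      · exact M.sc_phi _
  simpa using h1

/-- inequality (I) -/
theorem kk_le [Nonempty H.Dart] : M.kk + 8 ≤ 4 * cyc M.ρ := by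
  have h1 := M.star
  have h2 := M.two_cyc_phi
  omega

/-- crossed darts whose face is a digon with the other side uncrossed -/
def KA (d : H.Dart) : Prop := M.K d ∧ M.φ (M.φ d) = d ∧ M.U (M.φ d)

open Classical in
/-- number of `KA` darts -/
noncomputable def ka : ℕ := ∑ d, if M.KA d then 1 else 0

/-- if the face of `d` has a third dart -/
theorem three_le {w : H.Dart → ℕ} (d : H.Dart) (h : M.φ (M.φ d) ≠ d) :
    w d + w (M.φ d) + w (M.φ (M.φ d)) ≤ W M.φ w d := by
  refine le_trans ?_ (le_W M.φ _ d {d, M.φ d, M.φ (M.φ d)} ?_)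
  · rw [Finset.sum_insert, Finset.sum_pair (M.phi_ne _).symm, add_assoc]
    rw [Finset.mem_insert, Finset.mem_singleton, not_or]
    exact ⟨(M.phi_ne d).symm, fun h' => h h'.symm⟩
  · intro x hx
    simp only [Finset.mem_insert, Finset.mem_singleton] at hx
    rcases hx with rfl | rfl | rfl
    · exact SameCycle.refl _ _
    · exact M.sc_phi _
    · exact M.sc_phi2 _

theorem two_le {w : H.Dart → ℕ} (d : H.Dart) : w d + w (M.φ d) ≤ W M.φ w d := by
  refine le_trans ?_ (le_W M.φ _ d {d, M.φ d} ?_)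
  · rw [Finset.sum_pair (M.phi_ne _).symm]
  · intro x hx
    simp only [Finset.mem_insert, Finset.mem_singleton] at hx
    rcases hx with rfl | rfl
    · exact SameCycle.refl _ _
    · exact M.sc_phi _

/-- inequality (II) -/
theorem six_cyc_phi (hdeg : ∀ d, M.ρ d ≠ d) :
    6 * cyc M.φ ≤ 2 * Fintype.card H.Dart + M.kk + M.ka := by
  classical
  have h1 : 6 * cyc M.φ ≤ ∑ d, (2 + (if M.K d then 1 else 0) + (if M.KA d then 1 else 0)) := by
    apply mul_cyc_le
    intro d
    by_cases h3 : M.φ (M.φ d) = d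
    · refine le_trans ?_ (M.two_le d)
      by_cases hK : M.K d
      · by_cases hK' : M.K (M.φ d)
        · rw [if_pos hK, if_pos hK']; omega
        · rw [not_K] at hK'
          have : M.KA d := ⟨hK, h3, hK'⟩
          rw [if_pos hK, if_pos this]; omega
      · rw [not_K] at hK
        by_cases hK' : M.K (M.φ d)
        · have : M.KA (M.φ d) := ⟨hK', by rw [h3], by rw [h3]; exact hK⟩
          rw [if_pos hK', if_pos this]; omega
        · rw [not_K] at hK'
          exact (M.UU hdeg hK hK' h3).elim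
    · refine le_trans ?_ (M.three_le d h3)
      omega
  have h2 : ∑ d, (2 + (if M.K d then 1 else 0) + (if M.KA d then 1 else 0))
      = 2 * Fintype.card H.Dart + M.kk + M.ka := by
    unfold kk ka
    rw [Finset.sum_add_distrib, Finset.sum_add_distrib, Finset.sum_const, Finset.card_univ,
      smul_eq_mul, mul_comm]
  omega

/-- a `KA` dart yields an edge -/
theorem KA.adj {M : OPM H} {d : H.Dart} (h : M.KA d) : H.Adj (M.τ d).fst d.fst := by
  obtain ⟨h1, h2, h3⟩ := h
  have h4 : (M.φ d).snd = d.fst := by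
    have : (M.φ (M.φ d)).fst = (M.φ d).snd := by
      rw [M.phi_fst, h3]; rfl
    rw [← this, h2]
  have h5 := (M.φ d).adj
  rw [h4, M.phi_fst] at h5
  exact h5

/-- if there is no `K₄` then every crossing has a corner that is not of type `KA` -/
theorem exists_not_KA (hK4 : ∀ a b c d : V, ¬ (H.Adj a b ∧ H.Adj a c ∧ H.Adj a d ∧ H.Adj b c ∧
    H.Adj b d ∧ H.Adj c d)) (d : H.Dart) :
    ¬ (M.KA d ∧ M.KA (M.τ d) ∧ M.KA (M.τ (M.τ d)) ∧ M.KA (M.τ (M.τ (M.τ d)))) := by
  rintro ⟨h0, h1, h2, h3⟩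
  have hK := h0.1
  have e0 := h0.adj
  have e1 := h1.adj
  have e2 := h2.adj
  have e3 := h3.adj
  rw [hK.cross.1] at e1 e2 e3
  rw [hK.tau_symm] at e2 e3
  rw [hK.tau_tau_symm] at e3
  -- e0 : (τ d).fst ~ d.fst, e1 : d.snd ~ (τ d).fst, e2 : (τ d).snd ~ d.snd, e3 : d.fst ~ (τ d).snd
  exact hK4 d.fst (M.τ d).fst d.snd (M.τ d).snd ⟨e0.symm, d.adj, e3, e1.symm, (M.τ d).adj, e2.symm⟩

/-- sums over `τ`-shifts -/
theorem sum_tau (w : H.Dart → ℕ) :
    ∑ d, (w d + w (M.τ d) + w (M.τ (M.τ d)) + w (M.τ (M.τ (M.τ d)))) = 4 * ∑ d, w d := by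
  have h1 : ∑ d, w (M.τ d) = ∑ d, w d := Equiv.sum_comp M.τ w
  have h2 : ∑ d, w (M.τ (M.τ d)) = ∑ d, w d := by
    rw [Equiv.sum_comp M.τ (fun d => w (M.τ d)), h1]
  have h3 : ∑ d, w (M.τ (M.τ (M.τ d))) = ∑ d, w d := by
    rw [Equiv.sum_comp M.τ (fun d => w (M.τ (M.τ d))), h2]
  rw [Finset.sum_add_distrib, Finset.sum_add_distrib, Finset.sum_add_distrib, h1, h2, h3]
  ring

theorem ka_le (hK4 : ∀ a b c d : V, ¬ (H.Adj a b ∧ H.Adj a c ∧ H.Adj a d ∧ H.Adj b c ∧
    H.Adj b d ∧ H.Adj c d)) : 4 * M.ka ≤ 3 * M.kk := by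
  classical
  unfold ka kk
  rw [← M.sum_tau, Finset.mul_sum]
  apply Finset.sum_le_sum
  intro d _
  by_cases hK : M.K d
  · rw [if_pos hK]
    have := M.exists_not_KA hK4 d
    by_cases h0 : M.KA d <;> by_cases h1 : M.KA (M.τ d) <;> by_cases h2 : M.KA (M.τ (M.τ d)) <;>
      by_cases h3 : M.KA (M.τ (M.τ (M.τ d))) <;> simp [h0, h1, h2, h3] at this ⊢
  · have hU : M.U d := not_K.mp hK
    have hK1 : ¬ M.K (M.τ d) := by
      have : M.τ d = d.symm := hU
      rw [this]; exact not_K.mpr hU.symm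
    have h2 : M.τ (M.τ d) = d := by
      have : M.τ d = d.symm := hU
      rw [this, hU.tau_symm]
    have h0 : ¬ M.KA d := fun h => hK h.1
    have h1 : ¬ M.KA (M.τ d) := fun h => hK1 h.1
    rw [h2, if_neg h0, if_neg h1, if_neg hK]
    exact le_rfl

/-- the bound for `K₄`-free graphs -/
theorem card_le_of_K4_free [Nonempty H.Dart] (hdeg : ∀ d, M.ρ d ≠ d)
    (hK4 : ∀ a b c d : V, ¬ (H.Adj a b ∧ H.Adj a c ∧ H.Adj a d ∧ H.Adj b c ∧
    H.Adj b d ∧ H.Adj c d)) : Fintype.card H.Dart + 14 ≤ 7 * cyc M.ρ := by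
  have h1 := M.star
  have h2 := M.kk_le
  have h3 := M.six_cyc_phi hdeg
  have h4 := M.ka_le hK4
  omega

/-- the weight used in inequality (III) -/
noncomputable def w3 (d : H.Dart) : ℕ := open Classical in if M.K d then 5 else 3

theorem sum_w3 : ∑ d, M.w3 d = 3 * Fintype.card H.Dart + 2 * M.kk := by
  classical
  unfold w3 kk
  rw [Finset.mul_sum, mul_comm, ← smul_eq_mul, ← Finset.card_univ, ← Finset.sum_const,
    ← Finset.sum_add_distrib]
  apply Finset.sum_congr rfl
  intro x _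
  split_ifs <;> rfl

theorem w3_K {M : OPM H} {d : H.Dart} (h : M.K d) : M.w3 d = 5 := by
  unfold w3; rw [if_pos h]

theorem w3_ge (d : H.Dart) : 3 ≤ M.w3 d := by
  unfold w3; split_ifs <;> omega

theorem eight_le (hdeg : ∀ d, M.ρ d ≠ d) (d : H.Dart) : 8 ≤ W M.φ M.w3 d := by
  have g1 := M.w3_ge d
  have g2 := M.w3_ge (M.φ d)
  have g3 := M.w3_ge (M.φ (M.φ d))
  by_cases h3 : M.φ (M.φ d) = d
  · refine le_trans ?_ (M.two_le d)
    by_cases hK : M.K d
    · rw [w3_K hK]; omega
    · by_cases hK' : M.K (M.φ d)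
      · rw [w3_K hK']; omega
      · exact (M.UU hdeg (not_K.mp hK) (not_K.mp hK') h3).elim
  · refine le_trans ?_ (M.three_le d h3)
    omega

/-- excess bound, one face -/
theorem excess_one [Nonempty H.Dart] (hdeg : ∀ d, M.ρ d ≠ d) (a : H.Dart) :
    W M.φ M.w3 a + Fintype.card H.Dart + 8 ≤ 8 * cyc M.ρ := by
  have h1 := mul_cyc_le_one M.φ M.w3 8 (M.eight_le hdeg) a
  have h2 := M.star
  have h3 := M.sum_w3
  have h4 := M.eight_le hdeg a
  omega

/-- excess bound, two faces -/
theorem excess_two [Nonempty H.Dart] (hdeg : ∀ d, M.ρ d ≠ d) (a b : H.Dart)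
    (hab : ¬ SameCycle M.φ a b) :
    W M.φ M.w3 a + W M.φ M.w3 b + Fintype.card H.Dart ≤ 8 * cyc M.ρ := by
  have h1 := mul_cyc_le_two M.φ M.w3 8 (M.eight_le hdeg) a b hab
  have h2 := M.star
  have h3 := M.sum_w3
  have h4 := M.eight_le hdeg a
  have h5 := M.eight_le hdeg b
  omega

end count

end OPM

end Pool.Agent.Lib_helper59.OnePlane
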