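import Mathlib
import Pool.Agent.Lib_helper59.Count

/-! # Local arguments in one-plane hypermaps -/

namespace Pool.Agent.Lib_helper59.OnePlane

open Equiv Equiv.Perm Pool.Agent.Lib_helper59.Hyper

namespace OPM

variable {V : Type*} {H : SimpleGraph V} (M : OPM H)

theorem phi_symm_U {M : OPM H} {d : H.Dart} (h : M.U d) : M.φ d.symm = M.ρ d := by
  unfold φ
  rw [Perm.mul_apply, h.tau_symm]

theorem phi_U {M : OPM H} {d : H.Dart} (h : M.U d) : M.φ d = M.ρ d.symm := by
  unfold φ
  rw [Perm.mul_apply]
  congr 1

theorem phi_tau_symm_K {M : OPM H} {d : H.Dart} (h : M.K d) : M.φ (M.τ d).symm = M.ρ d := by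
  unfold φ
  rw [Perm.mul_apply, h.tau_tau_symm]

variable [Fintype H.Dart] [DecidableEq H.Dart]

/-- the equality case of the bound for `K₄`-free graphs has no vertex with at most `4` darts -/
theorem no_equality [Nonempty H.Dart] (hdeg : ∀ d, M.ρ d ≠ d)
    (hK4 : ∀ a b c d : V, ¬ (H.Adj a b ∧ H.Adj a c ∧ H.Adj a d ∧ H.Adj b c ∧
    H.Adj b d ∧ H.Adj c d)) (hcard : Fintype.card H.Dart + 14 = 7 * cyc M.ρ)
    (g : H.Dart) (hg : M.ρ (M.ρ (M.ρ (M.ρ g))) = g) : False := by
  classical
  have h1 := M.star
  have h2 := M.kk_le
  have h3 := M.six_cyc_phi hdeg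
  have h4 := M.ka_le hK4
  have h5 := M.two_cyc_phi
  -- all faces are digons
  have hA : ∀ d, M.φ (M.φ d) = d := by
    intro d
    by_contra hcon
    have h6 := mul_cyc_le_one M.φ (fun _ => 1) 2 (fun d => by
      have := M.two_le (w := fun _ => 1) d
      omega) d
    have h7 := M.three_le (w := fun _ => 1) d hcon
    have h8 : ∑ _x : H.Dart, 1 = Fintype.card H.Dart := by simp
    rw [h8] at h6
    omega
  have hka : 4 * M.ka = 3 * M.kk := by omega
  -- every crossing has exactly one corner that is not `KA`
  have hB : ∀ d, M.K d → ¬ M.KA d → M.KA (M.τ⁻¹ d) := by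
    intro d hd hnd
    by_contra hcon
    have hlt : 4 * M.ka < 3 * M.kk := by
      unfold ka kk
      rw [← M.sum_tau, Finset.mul_sum]
      apply Finset.sum_lt_sum
      · intro d _
        by_cases hK : M.K d
        · rw [if_pos hK]
          have := M.exists_not_KA hK4 d
          by_cases h0 : M.KA d <;> by_cases h1 : M.KA (M.τ d) <;>
            by_cases h2 : M.KA (M.τ (M.τ d)) <;>
            by_cases h3 : M.KA (M.τ (M.τ (M.τ d))) <;> simp [h0, h1, h2, h3] at this ⊢
        · have hU : M.U d := not_K.mp hK
          have hK1 : ¬ M.K (M.τ d) := by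
            have : M.τ d = d.symm := hU
            rw [this]; exact not_K.mpr hU.symm
          have h2 : M.τ (M.τ d) = d := by
            have : M.τ d = d.symm := hU
            rw [this, hU.tau_symm]
          have h0 : ¬ M.KA d := fun h => hK h.1
          have h1 : ¬ M.KA (M.τ d) := fun h => hK1 h.1
          rw [h2, if_neg h0, if_neg h1, if_neg hK]
          exact le_rfl
      · refine ⟨d, Finset.mem_univ _, ?_⟩
        have h9 : M.τ (M.τ (M.τ d)) = M.τ⁻¹ d := by
          rw [hd.tau_inv, hd.cross.1, hd.tau_symm]
        rw [if_pos hd, h9, if_neg hnd, if_neg hcon]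
        split_ifs <;> omega
    omega
  have c1 : ∀ d, M.U d → M.K (M.ρ d) := by
    intro d hd
    by_contra hcon
    have h6 : M.φ d.symm = M.ρ d := phi_symm_U hd
    exact M.UU hdeg hd.symm (by rw [h6]; exact not_K.mp hcon) (hA _)
  have c2 : ∀ d, M.K d → M.K (M.ρ d) → M.K (M.ρ (M.ρ d)) → False := by
    intro d h0 h1 h2
    have e1 : M.φ (M.ρ d) = M.τ⁻¹ d := by
      rw [← M.phi_tau_inv d, hA]
    have e2 : ¬ M.KA (M.ρ d) := by
      rintro ⟨_, _, h⟩
      rw [e1, h0.tau_inv] at h
      exact h0.tau.symm h
    have e3 := hB _ h1 e2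
    obtain ⟨_, _, h⟩ := e3
    rw [M.phi_tau_inv] at h
    exact h2 h
  -- a good starting dart
  have key : ∀ g : H.Dart, M.ρ (M.ρ (M.ρ (M.ρ g))) = g → M.U g → False := by
    intro g hg hU
    have hk := c1 g hU
    have hg' : M.U (M.ρ (M.ρ g)) := by
      by_contra hcon
      have hcon' : M.K (M.ρ (M.ρ g)) := hcon
      by_cases h6 : M.K (M.ρ (M.ρ (M.ρ g)))
      · exact c2 _ hk hcon' h6
      · have := c1 _ (not_K.mp h6)
        rw [hg] at this
        exact this hU
    have hk' := c1 _ hg'
    set k := M.ρ g with hkdef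
    set g' := M.ρ k with hg'def
    set k' := M.ρ g' with hk'def
    -- faces
    have f1 : M.φ k = g.symm := by
      have : M.φ g.symm = k := phi_symm_U hU
      rw [← this, hA]
    have f2 : M.φ g' = (M.τ k).symm := by
      have : M.φ (M.τ k).symm = g' := phi_tau_symm_K hk
      rw [← this, hA]
    have f3 : M.φ k' = g'.symm := by
      have : M.φ g'.symm = k' := phi_symm_U hg'
      rw [← this, hA]
    have f4 : M.φ g = (M.τ k').symm := by
      have : M.φ (M.τ k').symm = g := by rw [phi_tau_symm_K hk']; exact hg
      conv_lhs => rw [← this]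
      rw [hA]
    have a1 : (M.τ k).fst = g.snd := by rw [← M.phi_fst, f1]; rfl
    have a2 : (M.τ k).snd = g'.snd := by
      have : (M.φ g').fst = (M.τ k).snd := by rw [f2]; rfl
      rw [← this, M.phi_fst, hg']; rfl
    have a3 : (M.τ k').fst = g'.snd := by rw [← M.phi_fst, f3]; rfl
    have a4 : (M.τ k').snd = g.snd := by
      have : (M.φ g).fst = (M.τ k').snd := by rw [f4]; rfl
      rw [← this, M.phi_fst, hU]; rfl
    have a5 : M.τ k' = (M.τ k).symm :=
      SimpleGraph.Dart.ext _ _ (Prod.ext (a3.trans a2.symm) (a4.trans a1.symm))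
    rw [← hk.tau_symm] at a5
    have a6 : k' = k.symm := M.τ.injective a5
    have a7 : k'.fst = k.fst := by rw [hk'def, M.rho_fst, hg'def, M.rho_fst]
    have a8 : k'.fst = k.snd := by rw [a6]; rfl
    exact k.adj.ne (a7.symm.trans a8)
  by_cases hU : M.U g
  · exact key g hg hU
  · by_cases hU1 : M.U (M.ρ g)
    · exact key _ (by rw [hg]) hU1
    · by_cases hU2 : M.U (M.ρ (M.ρ g))
      · exact key _ (by rw [hg]) hU2
      · exact c2 g hU hU1 hU2

/-- `d`, `φ d` and a third dart of weight five unless there is a special uncrossed dart -/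
theorem face3 (d : H.Dart) (h2 : M.φ (M.φ d) ≠ d)
    (h : ∀ e : H.Dart, M.U e → e.fst = (M.τ (M.φ d)).fst → e.snd = d.fst → False) :
    M.w3 d + M.w3 (M.φ d) + 5 ≤ W M.φ M.w3 d := by
  by_cases hK : M.K (M.φ (M.φ d))
  · have := M.three_le (w := M.w3) d h2
    rw [w3_K hK] at this
    exact this
  · have hU := not_K.mp hK
    have h3 : M.φ (M.φ (M.φ d)) ≠ d := by
      intro h4
      apply h _ hU (M.phi_fst _)
      have : (M.φ (M.φ (M.φ d))).fst = (M.φ (M.φ d)).snd := by
        rw [M.phi_fst, hU]; rfl
      rw [← this, h4]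
    have g1 := M.w3_ge (M.φ (M.φ d))
    have g2 := M.w3_ge (M.φ (M.φ (M.φ d)))
    have := le_W M.φ M.w3 d {d, M.φ d, M.φ (M.φ d), M.φ (M.φ (M.φ d))} (by
      intro x hx
      simp only [Finset.mem_insert, Finset.mem_singleton] at hx
      rcases hx with rfl | rfl | rfl | rfl
      · exact SameCycle.refl _ _
      · exact M.sc_phi _
      · exact M.sc_phi2 _
      · exact (M.sc_phi2 _).trans (M.sc_phi _))
    rw [Finset.sum_insert, Finset.sum_insert, Finset.sum_pair (M.phi_ne _).symm] at this
    · omega
    · rw [Finset.mem_insert, Finset.mem_singleton, not_or]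
      exact ⟨(M.phi_ne _).symm, fun h' => h2 (M.φ.injective h').symm⟩
    · rw [Finset.mem_insert, Finset.mem_insert, Finset.mem_singleton, not_or, not_or]
      exact ⟨(M.phi_ne _).symm, fun h' => h2 h'.symm, fun h' => h3 h'.symm⟩

/-- the forbidden configuration: a vertex with two darts to nonadjacent vertices, in a graph with
many edges -/
theorem H1_false [Nonempty H.Dart] (hdeg : ∀ d, M.ρ d ≠ d)
    (hcard : 8 * cyc M.ρ ≤ Fintype.card H.Dart + 20) (g1 g2 : H.Dart) (h12 : M.ρ g1 = g2)
    (h21 : M.ρ g2 = g1) (hnadj : ¬ H.Adj g1.snd g2.snd) : False := by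
  have W1 : ∀ a, W M.φ M.w3 a ≤ 12 := by
    intro a
    have := M.excess_one hdeg a
    omega
  have W2 : ∀ a b, ¬ SameCycle M.φ a b → W M.φ M.w3 a + W M.φ M.w3 b ≤ 20 := by
    intro a b hab
    have := M.excess_two hdeg a b hab
    omega
  have hfst : g2.fst = g1.fst := by rw [← h12, M.rho_fst]
  have hne : g1 ≠ g2 := by rw [← h12]; exact (hdeg g1).symm
  have hsnd : g1.snd ≠ g2.snd := by
    intro h
    exact hne (SimpleGraph.Dart.ext _ _ (Prod.ext hfst.symm h))
  -- mixed case
  have mixed : ∀ g1 g2 : H.Dart, M.ρ g1 = g2 → M.ρ g2 = g1 → M.K g1 → M.U g2 → False := by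
    intro g1 g2 h12 h21 hK hU
    have hfst : g2.fst = g1.fst := by rw [← h12, M.rho_fst]
    have hne : g1 ≠ g2 := by rw [← h12]; exact (hdeg g1).symm
    obtain ⟨k1, k2, k3, k4, k5⟩ := hK.cross
    have eA : M.φ (M.τ g1).symm = g2 := by rw [phi_tau_symm_K hK, h12]
    have eB : M.φ g2.symm = g1 := by rw [phi_symm_U hU, h21]
    have wA : M.w3 (M.τ g1).symm = 5 := w3_K hK.tau.symm
    have wB : M.w3 g1 = 5 := w3_K hK
    have w2 := M.w3_ge g2
    have w2' := M.w3_ge g2.symm
    have fA : (M.φ (M.φ (M.τ g1).symm)).fst = g2.snd := by rw [M.phi_fst, eA, hU]; rfl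
    have fB : (M.φ (M.φ g2.symm)).fst = (M.τ g1).fst := by rw [M.phi_fst, eB]
    by_cases hq : (M.τ g1).snd = g2.snd
    · -- face B
      have hp : (M.τ g1).fst ≠ g2.snd := by rw [← hq]; exact (M.τ g1).adj.ne
      have := M.face3 g2.symm (by
        intro h
        apply hp
        rw [← fB, h]; rfl) (by
        intro e he1 he2 he3
        rw [eB] at he2
        have : e = M.τ g1 := SimpleGraph.Dart.ext _ _ (Prod.ext he2 (he3.trans hq.symm))
        rw [this] at he1
        exact hK.tau he1)
      rw [eB, wB] at this
      have := W1 g2.symm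
      omega
    · have hA2 : M.φ (M.φ (M.τ g1).symm) ≠ (M.τ g1).symm := by
        intro h
        rw [h] at fA
        exact hq fA
      by_cases hp : (M.τ g1).fst = g2.snd
      · have := M.face3 (M.τ g1).symm hA2 (by
          intro e he1 he2 he3
          rw [eA, hU] at he2
          have : e = M.τ g1 := SimpleGraph.Dart.ext _ _ (Prod.ext (he2.trans hp.symm) he3)
          rw [this] at he1
          exact hK.tau he1)
        rw [eA, wA] at this
        have := W1 (M.τ g1).symm
        omega
      · have hB2 : M.φ (M.φ g2.symm) ≠ g2.symm := by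
          intro h
          rw [h] at fB
          exact hp fB.symm
        have tA := M.three_le (w := M.w3) (M.τ g1).symm hA2
        have tB := M.three_le (w := M.w3) g2.symm hB2
        rw [eA, wA] at tA
        rw [eB, wB] at tB
        have g3 := M.w3_ge (M.φ g2)
        have g4 := M.w3_ge (M.φ g1)
        by_cases hs : SameCycle M.φ (M.τ g1).symm g2.symm
        · have := le_W M.φ M.w3 (M.τ g1).symm {(M.τ g1).symm, g1, g2} (by
            intro x hx
            simp only [Finset.mem_insert, Finset.mem_singleton] at hx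
            rcases hx with rfl | rfl | rfl
            · exact SameCycle.refl _ _
            · have := M.sc_phi g2.symm
              rw [eB] at this
              exact hs.trans this
            · have := M.sc_phi (M.τ g1).symm
              rwa [eA] at this)
          rw [Finset.sum_insert, Finset.sum_pair hne, wA, wB] at this
          · have := W1 (M.τ g1).symm
            omega
          · rw [Finset.mem_insert, Finset.mem_singleton, not_or]
            constructor
            · intro h
              exact k4 (congrArg (fun e : H.Dart => e.fst) h)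
            · intro h
              exact k4 ((congrArg (fun e : H.Dart => e.fst) h).trans hfst)
        · have := W2 _ _ hs
          omega
  by_cases hU1 : M.U g1
  · by_cases hU2 : M.U g2
    · -- both uncrossed
      have eA : M.φ g1.symm = g2 := by rw [phi_symm_U hU1, h12]
      have eB : M.φ g2.symm = g1 := by rw [phi_symm_U hU2, h21]
      have fA : (M.φ (M.φ g1.symm)).fst = g2.snd := by rw [M.phi_fst, eA, hU2]; rfl
      have fB : (M.φ (M.φ g2.symm)).fst = g1.snd := by rw [M.phi_fst, eB, hU1]; rfl
      have hA := M.face3 g1.symm (by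
        intro h
        apply hsnd
        rw [← fA, h]; rfl) (by
        intro e he1 he2 he3
        rw [eA, hU2] at he2
        have := e.adj
        rw [he2, he3] at this
        exact hnadj this.symm)
      have hB := M.face3 g2.symm (by
        intro h
        apply hsnd
        rw [← fB, h]; rfl) (by
        intro e he1 he2 he3
        rw [eB, hU1] at he2
        have := e.adj
        rw [he2, he3] at this
        exact hnadj this)
      rw [eA] at hA
      rw [eB] at hB
      have w1 := M.w3_ge g1
      have w2 := M.w3_ge g2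
      have w1' := M.w3_ge g1.symm
      have w2' := M.w3_ge g2.symm
      have w3' := M.w3_ge (M.φ g2)
      by_cases hs : SameCycle M.φ g1.symm g2.symm
      · have := le_W M.φ M.w3 g1.symm {g1.symm, g1, g2, g2.symm, M.φ g2} (by
          intro x hx
          simp only [Finset.mem_insert, Finset.mem_singleton] at hx
          rcases hx with rfl | rfl | rfl | rfl | rfl
          · exact SameCycle.refl _ _
          · have := M.sc_phi g2.symm
            rw [eB] at this
            exact hs.trans this
          · have := M.sc_phi g1.symm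
            rwa [eA] at this
          · exact hs
          · have := M.sc_phi2 g1.symm
            rwa [eA] at this)
        have n1 : M.φ g2 ≠ g2.symm := by
          rw [phi_U hU2]; exact hdeg _
        have n2 : (M.φ g2).fst = g2.snd := by rw [M.phi_fst, hU2]; rfl
        rw [Finset.sum_insert, Finset.sum_insert, Finset.sum_insert, Finset.sum_pair n1.symm]
          at this
        · have := W1 g1.symm
          omega
        · rw [Finset.mem_insert, Finset.mem_singleton, not_or]
          exact ⟨(symm_ne g2).symm, (M.phi_ne g2).symm⟩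
        · rw [Finset.mem_insert, Finset.mem_insert, Finset.mem_singleton, not_or, not_or]
          refine ⟨hne, fun h => ?_, fun h => ?_⟩
          · have h' : g1.fst = g2.snd := congrArg (fun e : H.Dart => e.fst) h
            rw [← hfst] at h'
            exact g2.adj.ne h'
          · have h' : g1.fst = (M.φ g2).fst := congrArg (fun e : H.Dart => e.fst) h
            rw [n2, ← hfst] at h'
            exact g2.adj.ne h'
        · rw [Finset.mem_insert, Finset.mem_insert, Finset.mem_insert, Finset.mem_singleton, not_or,
            not_or, not_or]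
          refine ⟨symm_ne g1, fun h => ?_, fun h => ?_, fun h => ?_⟩
          · have h' : g1.snd = g2.fst := congrArg (fun e : H.Dart => e.fst) h
            rw [hfst] at h'
            exact g1.adj.ne h'.symm
          · have h' : g1.snd = g2.snd := congrArg (fun e : H.Dart => e.fst) h
            exact hsnd h'
          · have h' : g1.snd = (M.φ g2).fst := congrArg (fun e : H.Dart => e.fst) h
            rw [n2] at h'
            exact hsnd h'
      · have := W2 _ _ hs
        omega
    · exact mixed g2 g1 h21 h12 hU2 hU1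
  · by_cases hU2 : M.U g2
    · exact mixed g1 g2 h12 h21 hU1 hU2
    · -- both crossed
      have hK1 : M.K g1 := hU1
      have hK2 : M.K g2 := hU2
      have eA : M.φ (M.τ g1).symm = g2 := by rw [phi_tau_symm_K hK1, h12]
      have eB : M.φ (M.τ g2).symm = g1 := by rw [phi_tau_symm_K hK2, h21]
      have hA : M.φ (M.φ (M.τ g1).symm) = (M.τ g1).symm := by
        by_contra hcon
        have := M.three_le (w := M.w3) _ hcon
        rw [eA, w3_K hK2, w3_K hK1.tau.symm] at this
        have g3 := M.w3_ge (M.φ g2)
        have := W1 (M.τ g1).symm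
        omega
      have hB : M.φ (M.φ (M.τ g2).symm) = (M.τ g2).symm := by
        by_contra hcon
        have := M.three_le (w := M.w3) _ hcon
        rw [eB, w3_K hK1, w3_K hK2.tau.symm] at this
        have g3 := M.w3_ge (M.φ g1)
        have := W1 (M.τ g2).symm
        omega
      rw [eA] at hA
      rw [eB] at hB
      have a1 : (M.τ g2).fst = (M.τ g1).snd := by rw [← M.phi_fst, hA]; rfl
      have a2 : (M.τ g1).fst = (M.τ g2).snd := by rw [← M.phi_fst, hB]; rfl
      have a3 : M.τ g2 = (M.τ g1).symm := SimpleGraph.Dart.ext _ _ (Prod.ext a1 a2.symm)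
      rw [← hK1.tau_symm] at a3
      have a4 : g2 = g1.symm := M.τ.injective a3
      have a5 : g2.fst = g1.snd := by rw [a4]; rfl
      exact g1.adj.ne (hfst.symm.trans a5)

end OPM

end Pool.Agent.Lib_helper59.OnePlane
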