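import Mathlib
import Pool.Agent.Lib_helper59.Local

/-! # Edge bound for graphs whose blow-up is one-plane -/

namespace Pool.Agent.Lib_helper59.OnePlane

open Equiv Equiv.Perm Pool.Agent.Lib_helper59.Hyper

/-- the lexicographic product `G ∘ 2K₁` -/
def blowup {V : Type*} (G : SimpleGraph V) : SimpleGraph (V × Fin 2) where
  Adj p q := G.Adj p.1 q.1
  symm := ⟨fun _ _ h => h.symm⟩
  loopless := ⟨fun p h => G.loopless.irrefl p.1 h⟩

theorem blowup_adj {V : Type*} (G : SimpleGraph V) (p q : V × Fin 2) :
    (blowup G).Adj p q ↔ G.Adj p.1 q.1 := Iff.rfl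

instance {V : Type*} (G : SimpleGraph V) [DecidableRel G.Adj] : DecidableRel (blowup G).Adj :=
  fun p q => inferInstanceAs (Decidable (G.Adj p.1 q.1))

/-- darts of the blow-up -/
def blowupDart {V : Type*} (G : SimpleGraph V) : (blowup G).Dart ≃ G.Dart × Fin 2 × Fin 2 where
  toFun d := (⟨(d.fst.1, d.snd.1), d.adj⟩, d.fst.2, d.snd.2)
  invFun x := ⟨((x.1.fst, x.2.1), (x.1.snd, x.2.2)), x.1.adj⟩
  left_inv _ := rfl
  right_inv _ := rfl

theorem card_blowup {V : Type*} [Fintype V] [DecidableEq V] (G : SimpleGraph V)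
    [DecidableRel G.Adj] : Fintype.card (blowup G).Dart = 8 * G.edgeFinset.card := by
  rw [Fintype.card_congr (blowupDart G), Fintype.card_prod, Fintype.card_prod, Fintype.card_fin,
    SimpleGraph.dart_card_eq_twice_card_edges]
  ring

theorem degree_blowup {V : Type*} [Fintype V] [DecidableEq V] (G : SimpleGraph V)
    [DecidableRel G.Adj] (v : V × Fin 2) : (blowup G).degree v = 2 * G.degree v.1 := by
  have : (blowup G).neighborFinset v = G.neighborFinset v.1 ×ˢ Finset.univ := by
    ext w
    simp [blowup_adj]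
  rw [← SimpleGraph.card_neighborFinset_eq_degree, this, Finset.card_product,
    SimpleGraph.card_neighborFinset_eq_degree, Finset.card_univ, Fintype.card_fin, mul_comm]

namespace OPM

variable {V : Type*} {H : SimpleGraph V} (M : OPM H)

theorem eq_of_fixed {d d' : H.Dart} (h : M.ρ d = d) (h' : d'.fst = d.fst) : d' = d := by
  have hs : SameCycle M.ρ d d' := (M.rot _ _).mpr h'.symm
  obtain ⟨i, hi⟩ := hs
  rw [← hi]
  exact Equiv.Perm.zpow_apply_eq_self_of_apply_eq_self h i

theorem hdeg_of (h : ∀ d : H.Dart, ∃ d' : H.Dart, d' ≠ d ∧ d'.fst = d.fst) (d : H.Dart) :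
    M.ρ d ≠ d := by
  intro hd
  obtain ⟨d', h1, h2⟩ := h d
  exact h1 (M.eq_of_fixed hd h2)

end OPM

/-- nine vertices: `K₄ ∘ 2K₁` together with a vertex adjacent to both copies of one vertex -/
def H1 : SimpleGraph (Fin 9) where
  Adj i j := (i.1 < 8 ∧ j.1 < 8 ∧ i.1 / 2 ≠ j.1 / 2) ∨ (i.1 = 8 ∧ j.1 < 2) ∨ (i.1 < 2 ∧ j.1 = 8)
  symm := ⟨by
    rintro i j (⟨h1, h2, h3⟩ | ⟨h1, h2⟩ | ⟨h1, h2⟩)
    · exact Or.inl ⟨h2, h1, h3.symm⟩
    · exact Or.inr (Or.inr ⟨h2, h1⟩)
    · exact Or.inr (Or.inl ⟨h2, h1⟩)⟩
  loopless := ⟨by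
    rintro i (⟨h1, h2, h3⟩ | ⟨h1, h2⟩ | ⟨h1, h2⟩)
    · exact h3 rfl
    · omega
    · omega⟩

instance : DecidableRel H1.Adj := fun i j =>
  inferInstanceAs (Decidable ((i.1 < 8 ∧ j.1 < 8 ∧ i.1 / 2 ≠ j.1 / 2) ∨ (i.1 = 8 ∧ j.1 < 2) ∨
    (i.1 < 2 ∧ j.1 = 8)))

theorem card_H1 : Fintype.card H1.Dart = 52 := by
  rw [SimpleGraph.dart_card_eq_sum_degrees]
  decide +kernel

theorem H1_two : ∀ d : H1.Dart, ∃ d' : H1.Dart, d' ≠ d ∧ d'.fst = d.fst := by
  have key : ∀ i j : Fin 9, H1.Adj i j → ∃ k : Fin 9, H1.Adj i k ∧ k ≠ j := by decide +kernel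
  intro d
  obtain ⟨k, h1, h2⟩ := key d.fst d.snd d.adj
  refine ⟨⟨(d.fst, k), h1⟩, ?_, rfl⟩
  intro h
  apply h2
  rw [← h]

theorem no_OPM_H1 (M : OPM H1) : False := by
  classical
  have hdeg := M.hdeg_of H1_two
  let g1 : H1.Dart := ⟨(8, 0), by decide⟩
  let g2 : H1.Dart := ⟨(8, 1), by decide⟩
  have : Nonempty H1.Dart := ⟨g1⟩
  have huniq : ∀ d : H1.Dart, d.fst = 8 → d = g1 ∨ d = g2 := by
    intro d hd
    have h1 := d.adj
    rw [hd] at h1
    have key : ∀ j : Fin 9, H1.Adj 8 j → j = 0 ∨ j = 1 := by decide +kernel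
    rcases key _ h1 with h | h
    · left; exact SimpleGraph.Dart.ext _ _ (Prod.ext hd h)
    · right; exact SimpleGraph.Dart.ext _ _ (Prod.ext hd h)
  have h12 : M.ρ g1 = g2 := by
    rcases huniq (M.ρ g1) (M.rho_fst g1) with h | h
    · exact absurd h (hdeg _)
    · exact h
  have h21 : M.ρ g2 = g1 := by
    rcases huniq (M.ρ g2) (M.rho_fst g2) with h | h
    · exact h
    · exact absurd h (hdeg _)
  have hc := M.cyc_rho_le
  rw [Nat.card_eq_fintype_card, Fintype.card_fin] at hc
  refine M.H1_false hdeg (by rw [card_H1]; omega) g1 g2 h12 h21 ?_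
  show ¬ H1.Adj 0 1
  decide

/-- a `K₄` with an edge leaving it is impossible -/
theorem no_K4_edge {V : Type*} [Fintype V] [DecidableEq V] {G : SimpleGraph V}
    [DecidableRel G.Adj] (M : OPM (blowup G)) (a b c d e : V) (hab : G.Adj a b) (hac : G.Adj a c)
    (had : G.Adj a d) (hbc : G.Adj b c) (hbd : G.Adj b d) (hcd : G.Adj c d) (hae : G.Adj a e)
    (hb : e ≠ b) (hc : e ≠ c) (hd : e ≠ d) : False := by
  let v : Fin 5 → V := ![a, b, c, d, e]
  have hv : Function.Injective v := by
    have h1 := hab.ne
    have h2 := hac.ne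
    have h3 := had.ne
    have h4 := hbc.ne
    have h5 := hbd.ne
    have h6 := hcd.ne
    have h7 := hae.ne
    intro i j hij
    fin_cases i <;> fin_cases j <;> simp_all [v]
  have hadj : ∀ i j : Fin 5, i ≠ j → (i.1 < 4 ∧ j.1 < 4) ∨ (i = 0 ∧ j = 4) ∨ (i = 4 ∧ j = 0) →
      G.Adj (v i) (v j) := by
    intro i j hij h
    fin_cases i <;> fin_cases j <;> simp_all [v, SimpleGraph.adj_comm]
  let q : Fin 9 → Fin 5 := fun i => ⟨i.1 / 2, by omega⟩
  let r : Fin 9 → Fin 2 := fun i => ⟨i.1 % 2, by omega⟩
  have hq1 : ∀ i j : Fin 9, H1.Adj i j → q i ≠ q j := by decide +kernel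
  have hq2 : ∀ i j : Fin 9, H1.Adj i j → ((q i).1 < 4 ∧ (q j).1 < 4) ∨ (q i = 0 ∧ q j = 4) ∨
      (q i = 4 ∧ q j = 0) := by decide +kernel
  obtain ⟨M'⟩ := M.sub (H' := H1) (fun i => (v (q i), r i)) (by
    intro i j hij
    exact hadj _ _ (hq1 i j hij) (hq2 i j hij)) (by
    intro i j hij
    have h1 : q i = q j := hv (congrArg Prod.fst hij)
    have h2 : r i = r j := congrArg (fun x : V × Fin 2 => x.2) hij
    have h3 : i.1 / 2 = j.1 / 2 := congrArg Fin.val h1
    have h4 : i.1 % 2 = j.1 % 2 := congrArg Fin.val h2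
    apply Fin.ext
    omega)
  exact no_OPM_H1 M'

set_option linter.unusedSectionVars false

section main

variable {V : Type*} [Fintype V] [DecidableEq V] (G : SimpleGraph V) [DecidableRel G.Adj]

theorem blowup_two : ∀ d : (blowup G).Dart, ∃ d' : (blowup G).Dart, d' ≠ d ∧ d'.fst = d.fst := by
  intro d
  refine ⟨⟨(d.fst, (d.snd.1, d.snd.2 + 1)), d.adj⟩, ?_, rfl⟩
  intro h
  have h1 : (d.snd.1, d.snd.2 + 1) = d.snd := congrArg (fun e : (blowup G).Dart => e.snd) h
  have h2 : d.snd.2 + 1 = d.snd.2 := congrArg Prod.snd h1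
  revert h2
  generalize d.snd.2 = x
  revert x
  decide

variable {G}

/-- the `K₄`-free case -/
theorem K4_free_bound (M : OPM (blowup G)) (hn : 1 ≤ Fintype.card V)
    (hK4 : ∀ a b c d : V, ¬ (G.Adj a b ∧ G.Adj a c ∧ G.Adj a d ∧ G.Adj b c ∧
      G.Adj b d ∧ G.Adj c d)) :
    4 * G.edgeFinset.card ≤ 7 * (Fintype.card V - 1) ∧
      (5 ≤ Fintype.card V → G.edgeFinset.card ≤ 2 * Fintype.card V - 4) := by
  classical
  have hdeg := M.hdeg_of (blowup_two G)
  have hD := card_blowup G
  have hK4' : ∀ a b c d : V × Fin 2, ¬ ((blowup G).Adj a b ∧ (blowup G).Adj a c ∧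
      (blowup G).Adj a d ∧ (blowup G).Adj b c ∧ (blowup G).Adj b d ∧ (blowup G).Adj c d) :=
    fun a b c d h => hK4 a.1 b.1 c.1 d.1 h
  have hc := M.cyc_rho_le
  rw [Nat.card_eq_fintype_card, Fintype.card_prod, Fintype.card_fin] at hc
  by_cases hne : Nonempty (blowup G).Dart
  · have h1 := M.card_le_of_K4_free hdeg hK4'
    refine ⟨by omega, fun h5 => ?_⟩
    by_contra hcon
    have hV : Fintype.card V = 5 := by omega
    have hm : G.edgeFinset.card = 7 := by omega
    have hcyc : cyc M.ρ = 10 := by omega
    -- a vertex of degree at most two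
    obtain ⟨v, hv⟩ : ∃ v, G.degree v ≤ 2 := by
      by_contra hcon
      push Not at hcon
      have h2 := G.sum_degrees_eq_twice_card_edges
      have h3 : ∑ _v : V, 3 ≤ ∑ v, G.degree v := Finset.sum_le_sum (fun v _ => hcon v)
      rw [Finset.sum_const, Finset.card_univ, hV, smul_eq_mul] at h3
      omega
    -- every vertex of the blow-up has a dart
    have hsurj : Function.Surjective (fun q => Quotient.lift (s := SameCycle.setoid M.ρ)
        (fun d : (blowup G).Dart => d.fst) (fun a b h => (M.rot a b).mp h) q) := by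
      have hinj : Function.Injective (fun q => Quotient.lift (s := SameCycle.setoid M.ρ)
          (fun d : (blowup G).Dart => d.fst) (fun a b h => (M.rot a b).mp h) q) := by
        intro q q' h
        induction q using Quotient.inductionOn with | _ d =>
        induction q' using Quotient.inductionOn with | _ d' =>
        exact Quotient.sound ((M.rot d d').mpr h)
      have : Fintype (Quotient (SameCycle.setoid M.ρ)) := Fintype.ofFinite _
      refine ((Fintype.bijective_iff_injective_and_card _).mpr ⟨hinj, ?_⟩).2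
      rw [← Nat.card_eq_fintype_card, Fintype.card_prod, Fintype.card_fin, hV]
      exact hcyc
    obtain ⟨q, hq⟩ := hsurj (v, 0)
    obtain ⟨g, rfl⟩ := Quotient.exists_rep q
    have hg : g.fst = (v, 0) := hq
    -- its rotation has length two or four
    have hlen : (M.ρ.cycleOf g).support.card = 2 * G.degree v := by
      rw [← degree_blowup G (v, 0), ← SimpleGraph.dart_fst_fiber_card_eq_degree]
      congr 1
      ext x
      rw [Equiv.Perm.mem_support_cycleOf_iff' (hdeg g), M.rot, Finset.mem_filter]
      constructor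
      · intro h; exact ⟨Finset.mem_univ _, by rw [← h, hg]⟩
      · intro h; rw [h.2, hg]
    have hpos : 0 < G.degree v := by
      have h2 : (blowup G).Adj g.fst g.snd := g.adj
      rw [hg] at h2
      rw [← SimpleGraph.card_neighborFinset_eq_degree, Finset.card_pos]
      exact ⟨g.snd.1, by rw [SimpleGraph.mem_neighborFinset]; exact h2⟩
    have h4 : (M.ρ ^ 4) g = g := by
      have h5 := Equiv.Perm.pow_mod_card_support_cycleOf_self_apply M.ρ 4 g
      rw [hlen] at h5
      have h6 : 4 % (2 * G.degree v) = 0 := by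
        have : G.degree v = 1 ∨ G.degree v = 2 := by omega
        rcases this with h | h <;> rw [h]
      rw [h6, pow_zero] at h5
      exact h5.symm
    refine M.no_equality hdeg hK4' (by omega) g ?_
    exact h4
  · have h0 : Fintype.card (blowup G).Dart = 0 := by
      rw [Fintype.card_eq_zero_iff]
      exact not_nonempty_iff.mp hne
    omega

end main

/-- **Main bound.** -/
theorem main_bound : ∀ (n : ℕ) (V : Type) [Fintype V] [DecidableEq V] (G : SimpleGraph V)
    [DecidableRel G.Adj], Fintype.card V = n → 1 ≤ n → OPM (blowup G) →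
    4 * G.edgeFinset.card ≤ 7 * (n - 1) + 3 ∧ (n ≠ 4 → 4 * G.edgeFinset.card ≤ 7 * (n - 1)) ∧
      (5 ≤ n → G.edgeFinset.card ≤ 2 * n - 4) := by
  intro n
  induction n using Nat.strong_induction_on with
  | _ n ih =>
    intro V _ _ G _ hV hn M
    by_cases hK4 : ∀ a b c d : V, ¬ (G.Adj a b ∧ G.Adj a c ∧ G.Adj a d ∧ G.Adj b c ∧
      G.Adj b d ∧ G.Adj c d)
    · obtain ⟨h1, h2⟩ := K4_free_bound M (by omega) hK4
      rw [hV] at h1 h2
      exact ⟨by omega, fun _ => h1, h2⟩
    · push Not at hK4
      obtain ⟨a, b, c, d, hab, hac, had, hbc, hbd, hcd⟩ := hK4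
      -- no edge leaves `{a, b, c, d}`
      have hclosed : ∀ x ∈ ({a, b, c, d} : Finset V), ∀ e, G.Adj x e →
          e ∈ ({a, b, c, d} : Finset V) := by
        intro x hx e hxe
        by_contra hcon
        simp only [Finset.mem_insert, Finset.mem_singleton, not_or] at hx hcon
        obtain ⟨ha, hb, hc, hd⟩ := hcon
        rcases hx with rfl | rfl | rfl | rfl
        · exact no_K4_edge M x b c d e hab hac had hbc hbd hcd hxe hb hc hd
        · exact no_K4_edge M x a c d e hab.symm hbc hbd hac had hcd hxe ha hc hd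
        · exact no_K4_edge M x a b d e hac.symm hbc.symm hcd hab had hbd hxe ha hb hd
        · exact no_K4_edge M x a b c e had.symm hbd.symm hcd.symm hab hac hbc hxe ha hb hc
      have hXcard : ({a, b, c, d} : Finset V).card = 4 := by
        rw [Finset.card_insert_of_notMem, Finset.card_insert_of_notMem,
          Finset.card_insert_of_notMem, Finset.card_singleton]
        · simp [hcd.ne]
        · simp [hbc.ne, hbd.ne]
        · simp [hab.ne, hac.ne, had.ne]
      have hclique : ∀ x ∈ ({a, b, c, d} : Finset V), ∀ y ∈ ({a, b, c, d} : Finset V), x ≠ y →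
          G.Adj x y := by
        intro x hx y hy hxy
        simp only [Finset.mem_insert, Finset.mem_singleton] at hx hy
        rcases hx with rfl | rfl | rfl | rfl <;> rcases hy with rfl | rfl | rfl | rfl <;>
          first | exact absurd rfl hxy | assumption | (apply SimpleGraph.Adj.symm; assumption)
      set X : Finset V := {a, b, c, d} with hX
      clear_value X
      have hn4 : 4 ≤ n := by rw [← hV, ← hXcard]; exact Finset.card_le_univ X
      by_cases h4 : n = 4
      · have h1 := G.card_edgeFinset_le_card_choose_two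
        rw [hV, h4] at h1
        have : Nat.choose 4 2 = 6 := rfl
        subst h4
        refine ⟨by omega, fun h => absurd rfl h, fun h => by omega⟩
      · -- strip the component
        let V' := {v : V // v ∉ X}
        let G' : SimpleGraph V' := G.comap Subtype.val
        have hV' : Fintype.card V' = n - 4 := by
          have := Fintype.card_subtype_compl (fun v => v ∈ X)
          rw [Fintype.card_coe, hV, hXcard] at this
          exact this
        obtain ⟨M'⟩ := M.sub (H' := blowup G') (fun x => (x.1.1, x.2)) (fun x y h => h) (by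
          intro x y h
          have h1 : x.1.1 = y.1.1 := congrArg Prod.fst h
          have h2 : x.2 = y.2 := congrArg (fun z : V × Fin 2 => z.2) h
          exact Prod.ext (Subtype.ext h1) h2)
        obtain ⟨h1, -, -⟩ := ih (n - 4) (by omega) V' G' hV' (by omega) M'
        have hcount : G.edgeFinset.card = G'.edgeFinset.card + 6 := by
          have e1 := G.sum_degrees_eq_twice_card_edges
          have e2 := G'.sum_degrees_eq_twice_card_edges
          have e3 : ∑ v, G.degree v = ∑ v ∈ X, G.degree v + ∑ v ∈ Xᶜ, G.degree v :=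
            (Finset.sum_add_sum_compl X _).symm
          have e4 : ∑ v ∈ X, G.degree v = 12 := by
            have : ∀ v ∈ X, G.degree v = 3 := by
              intro v hv
              have : G.neighborFinset v = X.erase v := by
                ext w
                rw [SimpleGraph.mem_neighborFinset, Finset.mem_erase]
                exact ⟨fun h => ⟨h.ne.symm, hclosed v hv w h⟩,
                  fun h => hclique v hv w h.2 h.1.symm⟩
              rw [← SimpleGraph.card_neighborFinset_eq_degree, this, Finset.card_erase_of_mem hv,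
                hXcard]
            rw [Finset.sum_congr rfl this, Finset.sum_const, hXcard]
            rfl
          have e5 : ∑ v ∈ Xᶜ, G.degree v = ∑ v : V', G'.degree v := by
            rw [Finset.sum_subtype Xᶜ (p := fun v => v ∉ X) (fun x => Finset.mem_compl)]
            apply Finset.sum_congr rfl
            intro v _
            have : G.neighborFinset v.1 = (G'.neighborFinset v).map
                ⟨Subtype.val, Subtype.val_injective⟩ := by
              ext w
              rw [SimpleGraph.mem_neighborFinset, Finset.mem_map]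
              constructor
              · intro h
                have hw : w ∉ X := fun hw => v.2 (hclosed w hw v.1 h.symm)
                exact ⟨⟨w, hw⟩, by rw [SimpleGraph.mem_neighborFinset]; exact h, rfl⟩
              · rintro ⟨u, hu, rfl⟩
                rw [SimpleGraph.mem_neighborFinset] at hu
                exact hu
            rw [← SimpleGraph.card_neighborFinset_eq_degree, this, Finset.card_map,
              SimpleGraph.card_neighborFinset_eq_degree]
          omega
        refine ⟨by omega, fun _ => by omega, fun _ => by omega⟩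

end Pool.Agent.Lib_helper59.OnePlane
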